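import Pool.Agent.Y490.GBC.Defs

/-!
Partial derivatives and basic contractions on `ℝ⁶`.
-/

open Filter MeasureTheory
open scoped Topology ContDiff

set_option autoImplicit false

noncomputable section

namespace Pool.Agent.Y490.GBC

section partialDer

variable {n : ℕ}

/-- `f` has partial derivatives `df k` at `x` (and is differentiable there). -/
def HasPd (f : E n → ℝ) (df : Fin n → ℝ) (x : E n) : Prop :=
  HasFDerivAt f (∑ k, df k • (EuclideanSpace.proj k : E n →L[ℝ] ℝ)) x

theorem HasPd.pd {f : E n → ℝ} {df : Fin n → ℝ} {x : E n} (h : HasPd f df x) (k : Fin n) :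
    pd k f x = df k := by
  unfold GBC.pd
  rw [HasFDerivAt.fderiv h]
  simp

theorem HasPd.congr {f : E n → ℝ} {df df' : Fin n → ℝ} {x : E n} (h : HasPd f df x)
    (e : ∀ k, df k = df' k) : HasPd f df' x := by
  rw [← funext e]; exact h

theorem hasPd_const (c : ℝ) (x : E n) : HasPd (fun _ => c) (fun _ => 0) x := by
  unfold HasPd
  simpa using hasFDerivAt_const c x

theorem hasPd_coord (i : Fin n) (x : E n) :
    HasPd (fun y => y i) (fun k => (1 : Matrix (Fin n) (Fin n) ℝ) i k) x := by
  unfold HasPd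
  have h : (∑ k, (1 : Matrix (Fin n) (Fin n) ℝ) i k • (EuclideanSpace.proj k : E n →L[ℝ] ℝ)) =
      EuclideanSpace.proj i := by
    simp [Matrix.one_apply]
  rw [h]
  exact (EuclideanSpace.proj i : E n →L[ℝ] ℝ).hasFDerivAt

theorem HasPd.add {f g : E n → ℝ} {df dg : Fin n → ℝ} {x : E n} (hf : HasPd f df x)
    (hg : HasPd g dg x) : HasPd (fun y => f y + g y) (fun k => df k + dg k) x := by
  unfold HasPd at *
  have h : HasFDerivAt (fun y => f y + g y) _ x := HasFDerivAt.add hf hg
  refine h.congr_fderiv ?_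
  rw [← Finset.sum_add_distrib]
  exact Finset.sum_congr rfl fun k _ => (add_smul _ _ _).symm

theorem HasPd.sub {f g : E n → ℝ} {df dg : Fin n → ℝ} {x : E n} (hf : HasPd f df x)
    (hg : HasPd g dg x) : HasPd (fun y => f y - g y) (fun k => df k - dg k) x := by
  unfold HasPd at *
  have h : HasFDerivAt (fun y => f y - g y) _ x := HasFDerivAt.sub hf hg
  refine h.congr_fderiv ?_
  rw [← Finset.sum_sub_distrib]
  exact Finset.sum_congr rfl fun k _ => (sub_smul _ _ _).symm

theorem HasPd.mul {f g : E n → ℝ} {df dg : Fin n → ℝ} {x : E n} (hf : HasPd f df x)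
    (hg : HasPd g dg x) : HasPd (fun y => f y * g y) (fun k => df k * g x + f x * dg k) x := by
  unfold HasPd at *
  have := HasFDerivAt.mul hf hg
  refine this.congr_fderiv ?_
  rw [Finset.smul_sum, Finset.smul_sum, ← Finset.sum_add_distrib]
  refine Finset.sum_congr rfl fun k _ => ?_
  rw [smul_smul, smul_smul, ← add_smul]
  congr 1
  ring

theorem HasPd.const_mul {f : E n → ℝ} {df : Fin n → ℝ} {x : E n} (c : ℝ) (hf : HasPd f df x) :
    HasPd (fun y => c * f y) (fun k => c * df k) x :=
  ((hasPd_const c x).mul hf).congr fun k => by ring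

theorem HasPd.comp {f : E n → ℝ} {df : Fin n → ℝ} {x : E n} (hf : HasPd f df x) {φ : ℝ → ℝ}
    {φ' : ℝ} (hφ : HasDerivAt φ φ' (f x)) : HasPd (fun y => φ (f y)) (fun k => φ' * df k) x := by
  unfold HasPd at *
  have := HasDerivAt.comp_hasFDerivAt x hφ hf
  refine this.congr_fderiv ?_
  rw [Finset.smul_sum]
  refine Finset.sum_congr rfl fun k _ => ?_
  rw [smul_smul]

theorem HasPd.sum {ι : Type*} (u : Finset ι) {f : ι → E n → ℝ} {df : ι → Fin n → ℝ} {x : E n}
    (hf : ∀ i ∈ u, HasPd (f i) (df i) x) :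
    HasPd (fun y => ∑ i ∈ u, f i y) (fun k => ∑ i ∈ u, df i k) x := by
  classical
  induction u using Finset.induction_on with
  | empty => simpa using hasPd_const 0 x
  | insert a u ha ih =>
    have h1 := (hf a (Finset.mem_insert_self _ _)).add
      (ih fun i hi => hf i (Finset.mem_insert_of_mem hi))
    simp only [Finset.sum_insert ha]
    exact h1

end partialDer

/-! ### The standard objects of `ℝ⁶` -/

/-- Kronecker's delta. -/
def dl (i j : Fin 6) : ℝ := if i = j then 1 else 0

/-- The complex structure, as an integer matrix. -/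
def JZ (i j : Fin 6) : ℤ :=
  if (i, j) = (1, 0) ∨ (i, j) = (3, 2) ∨ (i, j) = (5, 4) then 1
  else if (i, j) = (0, 1) ∨ (i, j) = (2, 3) ∨ (i, j) = (4, 5) then -1 else 0

/-- The complex structure of `ℝ⁶`. -/
def J (i j : Fin 6) : ℝ := JZ i j

/-- The vector `J x`. -/
def yy (x : E 6) (i : Fin 6) : ℝ := ∑ j, J i j * x j

/-- `|x|²`. -/
def sq (x : E 6) : ℝ := ∑ i, x i * x i

theorem dl_comm (i j : Fin 6) : dl i j = dl j i := by
  unfold dl; simp only [eq_comm]

theorem J_skew (i j : Fin 6) : J i j = -J j i := by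
  unfold J
  have : ∀ i j, JZ i j = -JZ j i := by decide
  rw [this]; push_cast; rfl

theorem sum_dl (f : Fin 6 → ℝ) (k : Fin 6) : ∑ m, dl k m * f m = f k := by
  simp [dl]

theorem sum_dl' (f : Fin 6 → ℝ) (k : Fin 6) : ∑ m, f m * dl m k = f k := by
  simp [dl]

theorem JJ (k l : Fin 6) : ∑ m, J k m * J m l = -dl k l := by
  have h : ∀ k l : Fin 6, ∑ m, JZ k m * JZ m l = -(if k = l then 1 else 0) := by decide
  have := congrArg (fun z : ℤ => (z : ℝ)) (h k l)
  push_cast at this
  simpa [J, dl] using this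

theorem yy_eq (x : E 6) : yy x = ![-x 1, x 0, -x 3, x 2, -x 5, x 4] := by
  funext i
  fin_cases i <;> simp [yy, J, JZ, Fin.sum_univ_succ]

theorem sum_xx (x : E 6) : ∑ m, x m * x m = sq x := rfl

theorem sum_xy (x : E 6) : ∑ m, x m * yy x m = 0 := by
  rw [yy_eq]; simp [Fin.sum_univ_six]; ring

theorem sum_yy (x : E 6) : ∑ m, yy x m * yy x m = sq x := by
  rw [yy_eq]; simp [Fin.sum_univ_six, sq]; ring

theorem sum_xJ (x : E 6) (i : Fin 6) : ∑ m, x m * J m i = -yy x i := by
  unfold yy
  rw [← Finset.sum_neg_distrib]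
  refine Finset.sum_congr rfl fun m _ => ?_
  rw [J_skew i m]; ring

theorem sum_Jy (x : E 6) (k : Fin 6) : ∑ m, J k m * yy x m = -x k := by
  have h : ∑ m, J k m * yy x m = ∑ l, (∑ m, J k m * J m l) * x l := by
    unfold yy
    simp only [Finset.mul_sum, Finset.sum_mul]
    rw [Finset.sum_comm]
    refine Finset.sum_congr rfl fun l _ => Finset.sum_congr rfl fun m _ => by ring
  rw [h]
  simp only [JJ]
  rw [← sum_dl (fun l => x l) k, ← Finset.sum_neg_distrib]
  exact Finset.sum_congr rfl fun l _ => by ring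

theorem sum_yJ (x : E 6) (i : Fin 6) : ∑ m, yy x m * J m i = x i := by
  have h := sum_Jy x i
  have : ∑ m, yy x m * J m i = -∑ m, J i m * yy x m := by
    rw [← Finset.sum_neg_distrib]
    refine Finset.sum_congr rfl fun m _ => ?_
    rw [J_skew m i]; ring
  rw [this, h]; ring

theorem hasPd_x (i : Fin 6) (x : E 6) : HasPd (fun y => y i) (fun k => dl i k) x :=
  (hasPd_coord i x).congr fun k => by simp [dl, Matrix.one_apply]

theorem hasPd_y (i : Fin 6) (x : E 6) : HasPd (fun y => yy y i) (fun k => J i k) x := by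
  unfold yy
  refine (HasPd.sum Finset.univ (f := fun j (y : E 6) => J i j * y j)
    (df := fun j k => J i j * dl j k) fun j _ => (hasPd_x j x).const_mul (J i j)).congr ?_
  intro k
  exact sum_dl' (fun j => J i j) k

theorem hasPd_sq (x : E 6) : HasPd sq (fun k => 2 * x k) x := by
  unfold sq
  refine (HasPd.sum Finset.univ (f := fun j (y : E 6) => y j * y j)
    (df := fun j k => dl j k * x j + x j * dl j k) fun j _ => (hasPd_x j x).mul (hasPd_x j x)).congr
    ?_
  intro k
  rw [Finset.sum_add_distrib, sum_dl' (fun j => x j) k]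
  have : ∑ j, dl j k * x j = x k := by
    rw [← sum_dl (fun j => x j) k]
    exact Finset.sum_congr rfl fun j _ => by rw [dl_comm]
  rw [this]; ring

theorem sq_nonneg' (x : E 6) : 0 ≤ sq x := Finset.sum_nonneg fun i _ => mul_self_nonneg _

theorem sq_eq_norm (x : E 6) : sq x = ‖x‖ ^ 2 := by
  rw [EuclideanSpace.norm_sq_eq]
  exact Finset.sum_congr rfl fun i _ => by rw [Real.norm_eq_abs, sq_abs]; ring

end Pool.Agent.Y490.GBC
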