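import Pool.Agent.Y490.GBC.Calc

/-!
The metrics `δ + f(|x|²) x ⊗ x + h(|x|²) Jx ⊗ Jx` on `ℝ⁶`: inverse and Christoffel symbols.
-/

open Filter MeasureTheory
open scoped Topology ContDiff

set_option autoImplicit false
set_option maxHeartbeats 4000000

noncomputable section

namespace Pool.Agent.Y490.GBC

/-- Coefficient functions. -/
structure Co where
  f : ℝ → ℝ
  f1 : ℝ → ℝ
  f2 : ℝ → ℝ
  h : ℝ → ℝ
  h1 : ℝ → ℝ
  h2 : ℝ → ℝ

namespace Co

/-- `f1`, `f2` are the derivatives of `f`, etc. -/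
structure Good (c : Co) : Prop where
  hf : ∀ s, 0 ≤ s → HasDerivAt c.f (c.f1 s) s
  hf1 : ∀ s, 0 ≤ s → HasDerivAt c.f1 (c.f2 s) s
  hh : ∀ s, 0 ≤ s → HasDerivAt c.h (c.h1 s) s
  hh1 : ∀ s, 0 ≤ s → HasDerivAt c.h1 (c.h2 s) s
  fpos : ∀ s, 0 ≤ s → 0 ≤ c.f s
  hpos : ∀ s, 0 ≤ s → 0 ≤ c.h s

variable (c : Co)

def v (s : ℝ) : ℝ := 1 + s * c.f s
def p (s : ℝ) : ℝ := 1 + s * c.h s
def al (s : ℝ) : ℝ := c.f1 s / c.v s
def be (s : ℝ) : ℝ := c.f s / c.v s
def ga (s : ℝ) : ℝ := (2 * c.h s * c.f s - c.h1 s) / c.v s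
def ep (s : ℝ) : ℝ := (c.h1 s - c.h s ^ 2) / c.p s
def al1 (s : ℝ) : ℝ := (c.f2 s * c.v s - c.f1 s * (c.f s + s * c.f1 s)) / c.v s ^ 2
def be1 (s : ℝ) : ℝ := (c.f1 s * c.v s - c.f s * (c.f s + s * c.f1 s)) / c.v s ^ 2
def ga1 (s : ℝ) : ℝ :=
  ((2 * c.h1 s * c.f s + 2 * c.h s * c.f1 s - c.h2 s) * c.v s -
    (2 * c.h s * c.f s - c.h1 s) * (c.f s + s * c.f1 s)) / c.v s ^ 2
def ep1 (s : ℝ) : ℝ :=
  ((c.h2 s - 2 * c.h s * c.h1 s) * c.p s - (c.h1 s - c.h s ^ 2) * (c.h s + s * c.h1 s)) /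
    c.p s ^ 2

/-- The metric `δ + f x ⊗ x + h Jx ⊗ Jx`. -/
def met : Met 6 := fun x => Matrix.of fun i j =>
  dl i j + c.f (sq x) * (x i * x j) + c.h (sq x) * (yy x i * yy x j)

/-- The inverse metric. -/
def gi (x : E 6) (i j : Fin 6) : ℝ :=
  dl i j - c.f (sq x) / c.v (sq x) * (x i * x j) - c.h (sq x) / c.p (sq x) * (yy x i * yy x j)

variable {c}

theorem Good.v_pos (hc : c.Good) {s : ℝ} (hs : 0 ≤ s) : 0 < c.v s := by
  have := hc.fpos s hs; unfold v; positivity

theorem Good.p_pos (hc : c.Good) {s : ℝ} (hs : 0 ≤ s) : 0 < c.p s := by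
  have := hc.hpos s hs; unfold p; positivity

theorem Good.hv (hc : c.Good) {s : ℝ} (hs : 0 ≤ s) :
    HasDerivAt c.v (c.f s + s * c.f1 s) s := by
  have h : HasDerivAt (fun s => 1 + s * c.f s) (1 * c.f s + s * c.f1 s) s :=
    ((hasDerivAt_id s).mul (hc.hf s hs)).const_add 1
  exact h.congr_deriv (by ring)

theorem Good.hp (hc : c.Good) {s : ℝ} (hs : 0 ≤ s) :
    HasDerivAt c.p (c.h s + s * c.h1 s) s := by
  have h : HasDerivAt (fun s => 1 + s * c.h s) (1 * c.h s + s * c.h1 s) s :=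
    ((hasDerivAt_id s).mul (hc.hh s hs)).const_add 1
  exact h.congr_deriv (by ring)

theorem Good.hal (hc : c.Good) {s : ℝ} (hs : 0 ≤ s) : HasDerivAt c.al (c.al1 s) s :=
  (hc.hf1 s hs).div (hc.hv hs) (hc.v_pos hs).ne'

theorem Good.hbe (hc : c.Good) {s : ℝ} (hs : 0 ≤ s) : HasDerivAt c.be (c.be1 s) s :=
  (hc.hf s hs).div (hc.hv hs) (hc.v_pos hs).ne'

theorem Good.hga (hc : c.Good) {s : ℝ} (hs : 0 ≤ s) : HasDerivAt c.ga (c.ga1 s) s := by
  have h1 : HasDerivAt (fun s => 2 * c.h s * c.f s - c.h1 s)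
      (2 * c.h1 s * c.f s + 2 * c.h s * c.f1 s - c.h2 s) s :=
    ((((hc.hh s hs).const_mul 2).mul (hc.hf s hs)).sub (hc.hh1 s hs))
  exact h1.div (hc.hv hs) (hc.v_pos hs).ne'

theorem Good.hep (hc : c.Good) {s : ℝ} (hs : 0 ≤ s) : HasDerivAt c.ep (c.ep1 s) s := by
  have h1 : HasDerivAt (fun s => c.h1 s - c.h s ^ 2) (c.h2 s - 2 * c.h s * c.h1 s) s := by
    refine ((hc.hh1 s hs).sub ((hc.hh s hs).pow 2)).congr_deriv ?_
    push_cast; ring
  exact h1.div (hc.hp hs) (hc.p_pos hs).ne'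

section contr

variable (x : E 6) (k i : Fin 6)

theorem met_x : ∑ m, c.met x k m * x m = c.v (sq x) * x k := by
  have h : ∀ m, c.met x k m * x m =
      dl k m * x m + c.f (sq x) * x k * (x m * x m) + c.h (sq x) * yy x k * (x m * yy x m) := by
    intro m; simp only [met, Matrix.of_apply]; ring
  simp only [h, Finset.sum_add_distrib, ← Finset.mul_sum, sum_xx, sum_xy,
    sum_dl (fun m => x m) k, v]
  ring

theorem met_y : ∑ m, c.met x k m * yy x m = c.p (sq x) * yy x k := by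
  have h : ∀ m, c.met x k m * yy x m =
      dl k m * yy x m + c.f (sq x) * x k * (x m * yy x m) + c.h (sq x) * yy x k * (yy x m * yy x m)
      := by
    intro m; simp only [met, Matrix.of_apply]; ring
  simp only [h, Finset.sum_add_distrib, ← Finset.mul_sum, sum_yy, sum_xy, sum_dl (yy x) k, p]
  ring

theorem met_dl : ∑ m, c.met x k m * dl m i = c.met x k i := sum_dl' (fun m => c.met x k m) i

theorem met_J : ∑ m, c.met x k m * J m i =
    J k i - c.f (sq x) * x k * yy x i + c.h (sq x) * yy x k * x i := by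
  have h : ∀ m, c.met x k m * J m i =
      dl k m * J m i + c.f (sq x) * x k * (x m * J m i) + c.h (sq x) * yy x k * (yy x m * J m i)
      := by
    intro m; simp only [met, Matrix.of_apply]; ring
  simp only [h, Finset.sum_add_distrib, ← Finset.mul_sum, sum_xJ, sum_yJ,
    sum_dl (fun m => J m i) k]
  ring

theorem gi_x (hc : c.Good) : ∑ m, c.gi x k m * x m = x k / c.v (sq x) := by
  have h : ∀ m, c.gi x k m * x m =
      dl k m * x m - c.f (sq x) / c.v (sq x) * x k * (x m * x m) -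
        c.h (sq x) / c.p (sq x) * yy x k * (x m * yy x m) := by
    intro m; simp only [gi]; ring
  have hv := (hc.v_pos (sq_nonneg' x)).ne'
  simp only [h, Finset.sum_sub_distrib, ← Finset.mul_sum, sum_xx, sum_xy,
    sum_dl (fun m => x m) k]
  field_simp
  simp only [v]; ring

theorem gi_y (hc : c.Good) : ∑ m, c.gi x k m * yy x m = yy x k / c.p (sq x) := by
  have h : ∀ m, c.gi x k m * yy x m =
      dl k m * yy x m - c.f (sq x) / c.v (sq x) * x k * (x m * yy x m) -
        c.h (sq x) / c.p (sq x) * yy x k * (yy x m * yy x m) := by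
    intro m; simp only [gi]; ring
  have hp := (hc.p_pos (sq_nonneg' x)).ne'
  simp only [h, Finset.sum_sub_distrib, ← Finset.mul_sum, sum_yy, sum_xy, sum_dl (yy x) k]
  field_simp
  simp only [p]; ring

theorem gi_dl : ∑ m, c.gi x k m * dl m i = c.gi x k i := sum_dl' (fun m => c.gi x k m) i

theorem gi_J : ∑ m, c.gi x k m * J m i =
    J k i + c.f (sq x) / c.v (sq x) * x k * yy x i - c.h (sq x) / c.p (sq x) * yy x k * x i := by
  have h : ∀ m, c.gi x k m * J m i =
      dl k m * J m i - c.f (sq x) / c.v (sq x) * x k * (x m * J m i) -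
        c.h (sq x) / c.p (sq x) * yy x k * (yy x m * J m i) := by
    intro m; simp only [gi]; ring
  simp only [h, Finset.sum_sub_distrib, ← Finset.mul_sum, sum_xJ, sum_yJ,
    sum_dl (fun m => J m i) k]
  ring

end contr

theorem inv_met (hc : c.Good) (x : E 6) : (c.met x)⁻¹ = Matrix.of (c.gi x) := by
  refine Matrix.inv_eq_right_inv ?_
  ext k i
  rw [Matrix.mul_apply]
  have hv := (hc.v_pos (sq_nonneg' x)).ne'
  have hp := (hc.p_pos (sq_nonneg' x)).ne'
  have h : ∀ m, c.met x k m * (Matrix.of (c.gi x)) m i =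
      c.met x k m * dl m i - c.f (sq x) / c.v (sq x) * x i * (c.met x k m * x m) -
        c.h (sq x) / c.p (sq x) * yy x i * (c.met x k m * yy x m) := by
    intro m; simp only [gi, Matrix.of_apply]; ring
  simp only [h, Finset.sum_sub_distrib, ← Finset.mul_sum, met_dl, met_x, met_y]
  have : (1 : Matrix (Fin 6) (Fin 6) ℝ) k i = dl k i := by simp [dl, Matrix.one_apply]
  rw [this]
  simp only [met, Matrix.of_apply]
  field_simp
  ring

theorem inv_met_apply (hc : c.Good) (x : E 6) (k i : Fin 6) : (c.met x)⁻¹ k i = c.gi x k i := by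
  rw [inv_met hc]; rfl

theorem hasPd_met (hc : c.Good) (x : E 6) (i j : Fin 6) :
    HasPd (fun y => c.met y i j) (fun k => 2 * c.f1 (sq x) * x k * (x i * x j) +
      c.f (sq x) * (dl i k * x j + x i * dl j k) + 2 * c.h1 (sq x) * x k * (yy x i * yy x j) +
      c.h (sq x) * (J i k * yy x j + yy x i * J j k)) x := by
  have hs := sq_nonneg' x
  have h1 := (hasPd_sq x).comp (hc.hf _ hs)
  have h2 := (hasPd_sq x).comp (hc.hh _ hs)
  have h3 := ((hasPd_const (dl i j) x).add (h1.mul ((hasPd_x i x).mul (hasPd_x j x)))).add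
    (h2.mul ((hasPd_y i x).mul (hasPd_y j x)))
  exact h3.congr fun k => by ring

/-- The Christoffel symbols. -/
def chr (c : Co) (x : E 6) (k i j : Fin 6) : ℝ :=
  x k * (c.al (sq x) * (x i * x j) + c.be (sq x) * dl i j + c.ga (sq x) * (yy x i * yy x j)) +
    c.ep (sq x) * (yy x k * (x i * yy x j + x j * yy x i)) +
    c.h (sq x) * (yy x j * J k i + yy x i * J k j)

theorem Chr_eq (hc : c.Good) (x : E 6) (k i j : Fin 6) : Chr c.met k i j x = c.chr x k i j := by
  unfold Chr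
  simp only [inv_met_apply hc, (hasPd_met hc x _ _).pd]
  have h : ∀ l, c.gi x k l *
      (2 * c.f1 (sq x) * x i * (x j * x l) + c.f (sq x) * (dl j i * x l + x j * dl l i) +
        2 * c.h1 (sq x) * x i * (yy x j * yy x l) + c.h (sq x) * (J j i * yy x l + yy x j * J l i) +
      (2 * c.f1 (sq x) * x j * (x i * x l) + c.f (sq x) * (dl i j * x l + x i * dl l j) +
        2 * c.h1 (sq x) * x j * (yy x i * yy x l) + c.h (sq x) * (J i j * yy x l + yy x i * J l j)) -
      (2 * c.f1 (sq x) * x l * (x i * x j) + c.f (sq x) * (dl i l * x j + x i * dl j l) +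
        2 * c.h1 (sq x) * x l * (yy x i * yy x j) + c.h (sq x) * (J i l * yy x j + yy x i * J j l)))
      = (2 * c.f1 (sq x) * (x i * x j) + 2 * c.f (sq x) * dl i j -
          2 * c.h1 (sq x) * (yy x i * yy x j)) * (c.gi x k l * x l) +
        (2 * c.h1 (sq x) * (x i * yy x j + x j * yy x i)) * (c.gi x k l * yy x l) +
        (2 * c.h (sq x) * yy x j) * (c.gi x k l * J l i) +
        (2 * c.h (sq x) * yy x i) * (c.gi x k l * J l j) := by
    intro l
    rw [dl_comm j i, dl_comm i l, dl_comm j l, J_skew j i, J_skew i l, J_skew j l]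
    ring
  simp only [h, Finset.sum_add_distrib, ← Finset.mul_sum, gi_x x k hc, gi_y x k hc, gi_J]
  have hv := (hc.v_pos (sq_nonneg' x)).ne'
  have hp := (hc.p_pos (sq_nonneg' x)).ne'
  simp only [chr, al, be, ga, ep]
  field_simp
  ring

end Co

end Pool.Agent.Y490.GBC
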