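import Pool.Agent.Y490.GBC.Defs

/-!
Contraction of tensors in an orthonormal frame.
-/

open Filter MeasureTheory
open scoped Topology ContDiff

set_option autoImplicit false
set_option maxHeartbeats 4000000

noncomputable section

namespace Pool.Agent.Y490.GBC

variable {n : ℕ}

/-- Components in a frame. -/
def hat4 (F : Fin n → Fin n → ℝ) (T : Fin n → Fin n → Fin n → Fin n → ℝ) (a b c d : Fin n) : ℝ :=
  ∑ i, ∑ j, ∑ k, ∑ l, F i a * F j b * F k c * F l d * T i j k l

/-- The tensor with given components in a frame. -/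
def push4 (F : Fin n → Fin n → ℝ) (T : Fin n → Fin n → Fin n → Fin n → ℝ) (i j k l : Fin n) : ℝ :=
  ∑ a, ∑ b, ∑ c, ∑ d, F i a * F j b * F k c * F l d * T a b c d

def push2 (F : Fin n → Fin n → ℝ) (T : Fin n → Fin n → ℝ) (i j : Fin n) : ℝ :=
  ∑ a, ∑ b, F i a * F j b * T a b

def hat2 (F : Fin n → Fin n → ℝ) (T : Fin n → Fin n → ℝ) (a b : Fin n) : ℝ :=
  ∑ i, ∑ j, F i a * F j b * T i j

theorem sum4 (f : Fin n → Fin n → Fin n → Fin n → ℝ) : ∑ i, ∑ j, ∑ k, ∑ l, f i j k l =
    ∑ q : Fin n × Fin n × Fin n × Fin n, f q.1 q.2.1 q.2.2.1 q.2.2.2 := by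
  simp only [Fintype.sum_prod_type]

theorem sum2 (f : Fin n → Fin n → ℝ) : ∑ i, ∑ j, f i j = ∑ q : Fin n × Fin n, f q.1 q.2 := by
  simp only [Fintype.sum_prod_type]

theorem prod4 (A B C D : Fin n → ℝ) :
    (∑ a, A a) * (∑ b, B b) * (∑ c, C c) * (∑ d, D d) =
      ∑ a, ∑ b, ∑ c, ∑ d, A a * B b * C c * D d := by
  simp only [← Finset.mul_sum, ← Finset.sum_mul]

theorem prod2 (A B : Fin n → ℝ) :
    (∑ a, A a) * (∑ b, B b) = ∑ a, ∑ b, A a * B b := by
  simp only [← Finset.mul_sum, ← Finset.sum_mul]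

theorem duality (F : Fin n → Fin n → ℝ) (T S : Fin n → Fin n → Fin n → Fin n → ℝ) :
    ∑ i, ∑ j, ∑ k, ∑ l, push4 F T i j k l * S i j k l =
      ∑ a, ∑ b, ∑ c, ∑ d, T a b c d * hat4 F S a b c d := by
  unfold push4 hat4
  simp only [sum4, Finset.sum_mul, Finset.mul_sum]
  rw [Finset.sum_comm]
  refine Finset.sum_congr rfl fun t _ => Finset.sum_congr rfl fun q _ => ?_
  ring

variable {F : Fin n → Fin n → ℝ} {G : Fin n → Fin n → ℝ}

theorem raise4 (hG : ∀ i j, G i j = ∑ a, F i a * F j a)
    (T : Fin n → Fin n → Fin n → Fin n → ℝ) (i j k l : Fin n) :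
    ∑ a, ∑ b, ∑ c, ∑ d, G i a * G j b * G k c * G l d * T a b c d =
      push4 F (hat4 F T) i j k l := by
  unfold push4 hat4
  simp only [hG, prod4]
  simp only [sum4, Finset.sum_mul, Finset.mul_sum]
  rw [Finset.sum_comm]
  refine Finset.sum_congr rfl fun t _ => Finset.sum_congr rfl fun q _ => ?_
  ring

theorem raise2 (hG : ∀ i j, G i j = ∑ a, F i a * F j a)
    (T : Fin n → Fin n → ℝ) (i j : Fin n) :
    ∑ a, ∑ b, G i a * G j b * T a b = push2 F (hat2 F T) i j := by
  unfold push2 hat2
  simp only [hG, prod2]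
  simp only [sum2, Finset.sum_mul, Finset.mul_sum]
  rw [Finset.sum_comm]
  refine Finset.sum_congr rfl fun t _ => Finset.sum_congr rfl fun q _ => ?_
  ring

theorem push2_id [DecidableEq (Fin n)] (hG : ∀ i j, G i j = ∑ a, F i a * F j a) (i j : Fin n) :
    push2 F (fun a b => if a = b then 1 else 0) i j = G i j := by
  unfold push2
  rw [hG]
  simp

theorem perm4 (f : Fin n → Fin n → Fin n → Fin n → ℝ) :
    ∑ j, ∑ l, ∑ i, ∑ k, f i j k l = ∑ i, ∑ j, ∑ k, ∑ l, f i j k l := by
  calc ∑ j, ∑ l, ∑ i, ∑ k, f i j k l = ∑ j, ∑ i, ∑ l, ∑ k, f i j k l :=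
        Finset.sum_congr rfl fun j _ => Finset.sum_comm
    _ = ∑ i, ∑ j, ∑ l, ∑ k, f i j k l := Finset.sum_comm
    _ = ∑ i, ∑ j, ∑ k, ∑ l, f i j k l :=
        Finset.sum_congr rfl fun i _ => Finset.sum_congr rfl fun j _ => Finset.sum_comm

/-- Contraction of the first and third index. -/
theorem hat2_ric (hG : ∀ i j, G i j = ∑ a, F i a * F j a)
    (T : Fin n → Fin n → Fin n → Fin n → ℝ) (b d : Fin n) :
    hat2 F (fun j l => ∑ i, ∑ k, G i k * T i j k l) b d = ∑ a, hat4 F T a b a d := by
  unfold hat2 hat4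
  simp only [hG, Finset.sum_mul, Finset.mul_sum]
  calc ∑ j, ∑ l, ∑ i, ∑ k, ∑ a, F j b * F l d * (F i a * F k a * T i j k l)
      = ∑ q : Fin n × Fin n × Fin n × Fin n, ∑ a, F q.1 b * F q.2.1 d *
          (F q.2.2.1 a * F q.2.2.2 a * T q.2.2.1 q.1 q.2.2.2 q.2.1) :=
        sum4 (fun j l i k => ∑ a, F j b * F l d * (F i a * F k a * T i j k l))
    _ = ∑ a, ∑ q : Fin n × Fin n × Fin n × Fin n, F q.1 b * F q.2.1 d *
          (F q.2.2.1 a * F q.2.2.2 a * T q.2.2.1 q.1 q.2.2.2 q.2.1) := Finset.sum_comm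
    _ = ∑ a, ∑ j, ∑ l, ∑ i, ∑ k, F j b * F l d * (F i a * F k a * T i j k l) :=
        Finset.sum_congr rfl fun a _ =>
          (sum4 (fun j l i k => F j b * F l d * (F i a * F k a * T i j k l))).symm
    _ = ∑ a, ∑ i, ∑ j, ∑ k, ∑ l, F i a * F j b * F k a * F l d * T i j k l := by
        refine Finset.sum_congr rfl fun a _ => ?_
        rw [perm4 (fun i j k l => F j b * F l d * (F i a * F k a * T i j k l))]
        refine Finset.sum_congr rfl fun i _ => Finset.sum_congr rfl fun j _ =>
          Finset.sum_congr rfl fun k _ => Finset.sum_congr rfl fun l _ => ?_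
        ring

theorem trace2 (hG : ∀ i j, G i j = ∑ a, F i a * F j a) (T : Fin n → Fin n → ℝ) :
    ∑ j, ∑ l, G j l * T j l = ∑ b, hat2 F T b b := by
  unfold hat2
  simp only [hG, Finset.sum_mul]
  calc ∑ j, ∑ l, ∑ a, F j a * F l a * T j l
      = ∑ q : Fin n × Fin n, ∑ a, F q.1 a * F q.2 a * T q.1 q.2 :=
        sum2 (fun j l => ∑ a, F j a * F l a * T j l)
    _ = ∑ a, ∑ q : Fin n × Fin n, F q.1 a * F q.2 a * T q.1 q.2 := Finset.sum_comm
    _ = ∑ a, ∑ j, ∑ l, F j a * F l a * T j l :=
        Finset.sum_congr rfl fun a _ => (sum2 (fun j l => F j a * F l a * T j l)).symm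

section push_prod

variable (F)

theorem push4_ad_bc (A B : Fin n → Fin n → ℝ) (i j k l : Fin n) :
    push4 F (fun a b c d => A b c * B a d) i j k l = push2 F A j k * push2 F B i l := by
  unfold push4 push2
  simp only [Finset.sum_mul, Finset.mul_sum]
  calc ∑ a, ∑ b, ∑ c, ∑ d, F i a * F j b * F k c * F l d * (A b c * B a d)
      = ∑ a, ∑ b, ∑ d, ∑ c, F i a * F j b * F k c * F l d * (A b c * B a d) :=
        Finset.sum_congr rfl fun a _ => Finset.sum_congr rfl fun b _ => Finset.sum_comm
    _ = ∑ a, ∑ d, ∑ b, ∑ c, F i a * F j b * F k c * F l d * (A b c * B a d) :=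
        Finset.sum_congr rfl fun a _ => Finset.sum_comm
    _ = ∑ a, ∑ d, ∑ b, ∑ c, F j b * F k c * A b c * (F i a * F l d * B a d) := by
        refine Finset.sum_congr rfl fun i _ => Finset.sum_congr rfl fun j _ =>
          Finset.sum_congr rfl fun k _ => Finset.sum_congr rfl fun l _ => ?_
        ring

theorem push4_bd_ac (A B : Fin n → Fin n → ℝ) (i j k l : Fin n) :
    push4 F (fun a b c d => A b d * B a c) i j k l = push2 F A j l * push2 F B i k := by
  unfold push4 push2
  simp only [Finset.sum_mul, Finset.mul_sum]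
  calc ∑ a, ∑ b, ∑ c, ∑ d, F i a * F j b * F k c * F l d * (A b d * B a c)
      = ∑ a, ∑ c, ∑ b, ∑ d, F i a * F j b * F k c * F l d * (A b d * B a c) :=
        Finset.sum_congr rfl fun a _ => Finset.sum_comm
    _ = ∑ a, ∑ c, ∑ b, ∑ d, F j b * F l d * A b d * (F i a * F k c * B a c) := by
        refine Finset.sum_congr rfl fun i _ => Finset.sum_congr rfl fun j _ =>
          Finset.sum_congr rfl fun k _ => Finset.sum_congr rfl fun l _ => ?_
        ring

theorem push4_add (S T : Fin n → Fin n → Fin n → Fin n → ℝ) (i j k l : Fin n) :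
    push4 F (fun a b c d => S a b c d + T a b c d) i j k l = push4 F S i j k l + push4 F T i j k l
    := by
  unfold push4
  simp only [mul_add, Finset.sum_add_distrib]

theorem push4_smul (r : ℝ) (T : Fin n → Fin n → Fin n → Fin n → ℝ) (i j k l : Fin n) :
    push4 F (fun a b c d => r * T a b c d) i j k l = r * push4 F T i j k l := by
  unfold push4
  simp only [Finset.mul_sum]
  refine Finset.sum_congr rfl fun i _ => Finset.sum_congr rfl fun j _ =>
          Finset.sum_congr rfl fun k _ => Finset.sum_congr rfl fun l _ => ?_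
  ring

end push_prod

/-- Ricci tensor in a frame. -/
def fric (R : Fin n → Fin n → Fin n → Fin n → ℝ) (b d : Fin n) : ℝ := ∑ a, R a b a d

/-- Scalar curvature in a frame. -/
def fscal (R : Fin n → Fin n → Fin n → Fin n → ℝ) : ℝ := ∑ b, fric R b b

/-- `P` in an orthonormal frame. -/
def fP (R : Fin n → Fin n → Fin n → Fin n → ℝ) (a b c d : Fin n) : ℝ :=
  R a b c d + fric R b c * (if a = d then 1 else 0) - fric R b d * (if a = c then 1 else 0) -
    fric R a c * (if b = d then 1 else 0) + fric R a d * (if b = c then 1 else 0) +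
    1 / 2 * fscal R * ((if a = c then 1 else 0) * (if b = d then 1 else 0) -
      (if a = d then 1 else 0) * (if b = c then 1 else 0))

theorem Scal_frame (g : Met n) (x : E n) (hG : ∀ i j, (g x)⁻¹ i j = ∑ a, F i a * F j a) :
    Scal g x = fscal (hat4 F (fun i j k l => Rm g i j k l x)) := by
  unfold Scal fscal fric
  rw [trace2 hG]
  exact Finset.sum_congr rfl fun b _ => hat2_ric hG _ b b

theorem P_frame (g : Met n) (x : E n) (hG : ∀ i j, (g x)⁻¹ i j = ∑ a, F i a * F j a)
    (i j k l : Fin n) :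
    P g i j k l x = push4 F (fP (hat4 F (fun i j k l => Rm g i j k l x))) i j k l := by
  set R := hat4 F (fun i j k l => Rm g i j k l x) with hR
  have h1 : RmU g i j k l x = push4 F R i j k l := raise4 hG _ i j k l
  have h2 : ∀ i j, RicU g i j x = push2 F (fric R) i j := by
    intro i j
    have e : hat2 F (fun j l => Ric g j l x) = fric R := by
      funext b d
      exact hat2_ric hG _ b d
    rw [← e]
    exact raise2 hG _ i j
  have h3 := Scal_frame g x hG
  rw [← hR] at h3
  unfold P
  rw [h1, h2, h2, h2, h2, h3, ← push2_id hG i l, ← push2_id hG i k, ← push2_id hG j l,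
    ← push2_id hG j k, ← push4_ad_bc, ← push4_bd_ac]
  have e3 : push2 F (fric R) i k * push2 F (fun a b => if a = b then 1 else 0) j l =
      push4 F (fun a b c d => (if b = d then 1 else 0) * fric R a c) i j k l := by
    rw [push4_bd_ac F (fun b d => if b = d then 1 else 0) (fric R)]; ring
  have e4 : push2 F (fric R) i l * push2 F (fun a b => if a = b then 1 else 0) j k =
      push4 F (fun a b c d => (if b = c then 1 else 0) * fric R a d) i j k l := by
    rw [push4_ad_bc F (fun b d => if b = d then 1 else 0) (fric R)]; ring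
  have e5 : push2 F (fun a b => if a = b then 1 else 0) i k *
      push2 F (fun a b => if a = b then 1 else 0) j l =
      push4 F (fun a b c d => (if b = d then 1 else 0) * (if a = c then 1 else 0)) i j k l := by
    rw [push4_bd_ac F (fun b d => if b = d then 1 else 0) (fun b d => if b = d then 1 else 0)]; ring
  have e6 : push2 F (fun a b => if a = b then 1 else 0) i l *
      push2 F (fun a b => if a = b then 1 else 0) j k =
      push4 F (fun a b c d => (if b = c then 1 else 0) * (if a = d then 1 else 0)) i j k l := by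
    rw [push4_ad_bc F (fun b d => if b = d then 1 else 0) (fun b d => if b = d then 1 else 0)]; ring
  rw [e3, e4, e5, e6]
  have e7 : fP R = fun a b c d => (((((R a b c d + fric R b c * (if a = d then 1 else 0)) +
      (-1) * (fric R b d * (if a = c then 1 else 0))) +
      (-1) * ((if b = d then 1 else 0) * fric R a c)) +
      (if b = c then 1 else 0) * fric R a d) +
      (1 / 2 * fscal R) * ((if b = d then 1 else 0) * (if a = c then 1 else 0))) +
      (-(1 / 2 * fscal R)) * ((if b = c then 1 else 0) * (if a = d then 1 else 0)) := by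
    funext a b c d
    unfold fP
    ring
  rw [e7]
  simp only [push4_add, push4_smul]
  ring

theorem L2_frame (g : Met n) (x : E n) (hG : ∀ i j, (g x)⁻¹ i j = ∑ a, F i a * F j a) :
    L2 g x = ∑ a, ∑ b, ∑ c, ∑ d, fP (hat4 F (fun i j k l => Rm g i j k l x)) a b c d *
      hat4 F (fun i j k l => Rm g i j k l x) a b c d := by
  unfold L2
  simp only [P_frame g x hG]
  exact duality F _ _

end Pool.Agent.Y490.GBC
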