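import Pool.Agent.Y490.GBC.Ell

/-!
Decay estimates for the explicit metric.
-/

open Filter MeasureTheory
open scoped Topology ContDiff

set_option autoImplicit false
set_option maxHeartbeats 4000000

noncomputable section

namespace Pool.Agent.Y490.GBC

theorem bm {a b A B : ℝ} (h1 : |a| ≤ A) (h2 : |b| ≤ B) : |a * b| ≤ A * B := by
  rw [abs_mul]; exact mul_le_mul h1 h2 (abs_nonneg _) ((abs_nonneg _).trans h1)

theorem ba {a b A B : ℝ} (h1 : |a| ≤ A) (h2 : |b| ≤ B) : |a + b| ≤ A + B :=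
  (abs_add_le _ _).trans (add_le_add h1 h2)

section coef

variable {s : ℝ} (hs : 0 ≤ s)

include hs

theorem pow_le (k m : ℕ) (h : k ≤ m) : s ^ k ≤ (1 + s) ^ m :=
  (pow_le_pow_left₀ hs (by linarith) k).trans (pow_le_pow_right₀ (by linarith) h)

theorem pa_ge : (1 + s) ^ 3 ≤ pa s := by unfold pa; linarith
theorem pb_ge : (1 + s) ^ 2 ≤ pb s := by unfold pb; linarith

theorem cx_ell_le : cx.ell s ≤ 56000000000 / (1 + s) ^ 4 := by
  rw [cx_ell hs]
  have hu : 0 < 1 + s := by positivity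
  have ha := pa_ge hs
  have hb := pb_ge hs
  have hap := pa_pos hs
  have hbp := pb_pos hs
  rw [div_le_div_iff₀ (by positivity) (by positivity)]
  have h1 : (1 + s) ^ 13 ≤ pa s ^ 3 * pb s ^ 2 := by
    calc (1 + s) ^ 13 = ((1 + s) ^ 3) ^ 3 * ((1 + s) ^ 2) ^ 2 := by ring
      _ ≤ pa s ^ 3 * pb s ^ 2 := by gcongr
  have h2 : 331776 + 16367616 * s + 309799296 * s ^ 2 + 2273719680 * s ^ 3 +
    7361290368 * s ^ 4 + 34686071424 * s ^ 5 + 8630136576 * s ^ 6 + 2649210624 * s ^ 7 +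
    66044160 * s ^ 8 - 44188416 * s ^ 9 - 5374080 * s ^ 10 + 127872 * s ^ 11 + 79488 * s ^ 12 +
    10368 * s ^ 13 ≤ 56000000000 * (1 + s) ^ 13 := by
    have e0 := pow_le hs 0 13 (by norm_num)
    have e1 := pow_le hs 1 13 (by norm_num)
    have e2 := pow_le hs 2 13 (by norm_num)
    have e3 := pow_le hs 3 13 (by norm_num)
    have e4 := pow_le hs 4 13 (by norm_num)
    have e5 := pow_le hs 5 13 (by norm_num)
    have e6 := pow_le hs 6 13 (by norm_num)
    have e7 := pow_le hs 7 13 (by norm_num)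
    have e8 := pow_le hs 8 13 (by norm_num)
    have e9 : 0 ≤ s ^ 9 := by positivity
    have e10 : 0 ≤ s ^ 10 := by positivity
    have e11 := pow_le hs 11 13 (by norm_num)
    have e12 := pow_le hs 12 13 (by norm_num)
    have e13 := pow_le hs 13 13 (by norm_num)
    rw [pow_one] at e1
    rw [pow_zero] at e0
    linarith
  calc _ ≤ 56000000000 * (1 + s) ^ 13 * (1 + s) ^ 4 := by gcongr
    _ ≤ 56000000000 * (pa s ^ 3 * pb s ^ 2) * (1 + s) ^ 4 := by gcongr
    _ = _ := by ring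

theorem cx_kA_le : |cx.kA s| ≤ 16848 / (1 + s) ^ 2 := by
  rw [cx_kA hs]
  have hu : 0 < 1 + s := by positivity
  have ha := pa_ge hs
  have hb := pb_ge hs
  have hap := pa_pos hs
  have hbp := pb_pos hs
  rw [abs_div, abs_mul, abs_of_pos hu, abs_of_pos (by positivity : 0 < pa s ^ 2 * pb s ^ 2),
    div_le_div_iff₀ (by positivity) (by positivity)]
  have h1 : (1 + s) ^ 10 ≤ pa s ^ 2 * pb s ^ 2 := by
    calc (1 + s) ^ 10 = ((1 + s) ^ 3) ^ 2 * ((1 + s) ^ 2) ^ 2 := by ring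
      _ ≤ pa s ^ 2 * pb s ^ 2 := by gcongr
  have h2 : |-264 * s + 1404 * s ^ 2 + 13572 * s ^ 3 + 1128 * s ^ 4 - 432 * s ^ 5 -
    36 * s ^ 6 - 12 * s ^ 7| ≤ 16848 * (1 + s) ^ 7 := by
    have e1 := pow_le hs 1 7 (by norm_num)
    have e2 := pow_le hs 2 7 (by norm_num)
    have e3 := pow_le hs 3 7 (by norm_num)
    have e4 := pow_le hs 4 7 (by norm_num)
    have e5 := pow_le hs 5 7 (by norm_num)
    have e6 := pow_le hs 6 7 (by norm_num)
    have e7 := pow_le hs 7 7 (by norm_num)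
    have f2 : 0 ≤ s ^ 2 := by positivity
    have f3 : 0 ≤ s ^ 3 := by positivity
    have f4 : 0 ≤ s ^ 4 := by positivity
    have f5 : 0 ≤ s ^ 5 := by positivity
    have f6 : 0 ≤ s ^ 6 := by positivity
    have f7 : 0 ≤ s ^ 7 := by positivity
    rw [pow_one] at e1
    rw [abs_le]
    constructor <;> linarith
  calc _ ≤ 16848 * (1 + s) ^ 7 * (1 + s) * (1 + s) ^ 2 := by gcongr
    _ = 16848 * (1 + s) ^ 10 := by ring
    _ ≤ _ := by gcongr

theorem cx_kB_le : |cx.kB s| ≤ 72 / (1 + s) ^ 2 := by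
  rw [cx_kB hs]
  have hu : 0 < 1 + s := by positivity
  have ha := pa_ge hs
  have hap := pa_pos hs
  rw [abs_div, abs_mul, abs_of_pos (by positivity : 0 < 36 * (1 + s) ^ 2),
    abs_of_pos (by positivity : 0 < pa s ^ 2), div_le_div_iff₀ (by positivity) (by positivity)]
  have h2 : |1 - 2 * s| ≤ 2 * (1 + s) := by
    rw [abs_le]; constructor <;> linarith
  have h1 : (1 + s) ^ 5 ≤ pa s ^ 2 := by
    calc (1 + s) ^ 5 ≤ (1 + s) ^ 6 := pow_le_pow_right₀ (by linarith) (by norm_num)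
      _ = ((1 + s) ^ 3) ^ 2 := by ring
      _ ≤ pa s ^ 2 := by gcongr
  calc _ ≤ 36 * (1 + s) ^ 2 * (2 * (1 + s)) * (1 + s) ^ 2 := by gcongr
    _ = 72 * (1 + s) ^ 5 := by ring
    _ ≤ _ := by gcongr

theorem cx_kC_le : |cx.kC s| ≤ 10752 / (1 + s) ^ 2 := by
  rw [cx_kC hs]
  have hu : 0 < 1 + s := by positivity
  have ha := pa_ge hs
  have hb := pb_ge hs
  have hap := pa_pos hs
  have hbp := pb_pos hs
  rw [abs_of_nonneg (by positivity), div_le_div_iff₀ (by positivity) (by positivity)]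
  have h1 : (1 + s) ^ 5 ≤ pa s * pb s := by
    calc (1 + s) ^ 5 = (1 + s) ^ 3 * (1 + s) ^ 2 := by ring
      _ ≤ pa s * pb s := by gcongr
  have h2 : 36 + 1176 * s + 7656 * s ^ 2 + 1584 * s ^ 3 + 276 * s ^ 4 + 24 * s ^ 5 ≤
      10752 * (1 + s) ^ 5 := by
    have e0 := pow_le hs 0 5 (by norm_num)
    have e1 := pow_le hs 1 5 (by norm_num)
    have e2 := pow_le hs 2 5 (by norm_num)
    have e3 := pow_le hs 3 5 (by norm_num)
    have e4 := pow_le hs 4 5 (by norm_num)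
    have e5 := pow_le hs 5 5 (by norm_num)
    rw [pow_one] at e1
    rw [pow_zero] at e0
    linarith
  calc _ ≤ 10752 * (1 + s) ^ 5 * (1 + s) ^ 2 := by gcongr
    _ ≤ 10752 * (pa s * pb s) * (1 + s) ^ 2 := by gcongr
    _ = _ := by ring

theorem cx_kD_le : |cx.kD s| ≤ 36 / (1 + s) ^ 2 := by
  rw [cx_kD hs]
  have hu : 0 < 1 + s := by positivity
  have ha := pa_ge hs
  have hap := pa_pos hs
  rw [abs_of_pos (by positivity)]
  refine div_le_div_of_nonneg_left (by norm_num) (by positivity) ?_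
  exact (pow_le_pow_right₀ (by linarith) (by norm_num)).trans ha

theorem cx_kM_le : cx.kM s ≤ (12 / (1 + s) ^ 2) ^ 2 := by
  rw [cx_kM hs, div_pow, ← pow_mul]
  have hu : 0 < 1 + s := by positivity
  have ha := pa_ge hs
  have hb := pb_ge hs
  have hap := pa_pos hs
  have hbp := pb_pos hs
  rw [div_le_div_iff₀ (by positivity) (by positivity)]
  have h1 : (1 + s) ^ 5 ≤ pa s * pb s := by
    calc (1 + s) ^ 5 = (1 + s) ^ 3 * (1 + s) ^ 2 := by ring
      _ ≤ pa s * pb s := by gcongr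
  have h2 : (1 - s) ^ 2 ≤ (1 + s) ^ 2 := by nlinarith
  calc 144 * (1 - s) ^ 2 * (1 + s) ^ (2 * 2) ≤ 144 * (1 + s) ^ 2 * (1 + s) ^ (2 * 2) := by gcongr
    _ = 12 ^ 2 * ((1 + s) ^ 5 * (1 + s)) := by ring
    _ ≤ 12 ^ 2 * (pa s * pb s * (1 + s)) := by gcongr

theorem cx_co_le {w0 w1 : ℝ} (h0 : w0 ^ 2 = 1 / cx.v s) (h1 : w1 ^ 2 = 1 / cx.p s) (t : Fin 6) :
    |cx.co s w0 w1 t| ≤ 16848 / (1 + s) ^ 2 := by
  have hu : 0 < 1 + s := by positivity
  have key : ∀ k : ℝ, k ≤ 16848 → k / (1 + s) ^ 2 ≤ 16848 / (1 + s) ^ 2 := fun k hk => by gcongr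
  fin_cases t
  · have e : cx.co s w0 w1 0 = cx.kA s := by
      show (_ * (w0 ^ 2 * w1 ^ 2) : ℝ) = _
      rw [h0, h1]; rfl
    show |cx.co s w0 w1 0| ≤ _
    rw [e]; exact cx_kA_le hs
  · have e : cx.co s w0 w1 1 = cx.kB s := by
      show (_ * w0 ^ 2 : ℝ) = _
      rw [h0]; rfl
    show |cx.co s w0 w1 1| ≤ _
    rw [e]; exact (cx_kB_le hs).trans (key _ (by norm_num))
  · have e : cx.co s w0 w1 2 = cx.kC s := by
      show (_ * w1 ^ 2 : ℝ) = _
      rw [h1]; rfl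
    show |cx.co s w0 w1 2| ≤ _
    rw [e]; exact (cx_kC_le hs).trans (key _ (by norm_num))
  · exact (cx_kD_le hs).trans (key _ (by norm_num))
  · show |-(12 / (1 + s) ^ 2)| ≤ _
    rw [abs_neg, abs_of_pos (by positivity)]
    exact key _ (by norm_num)
  · show |-(cx.h s + cx.h1 s * s) * (w0 * w1)| ≤ _
    refine le_trans ?_ (key 12 (by norm_num))
    refine abs_le_of_sq_le_sq ?_ (by positivity)
    have e : (-(cx.h s + cx.h1 s * s) * (w0 * w1)) ^ 2 = cx.kM s := by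
      have : (-(cx.h s + cx.h1 s * s) * (w0 * w1)) ^ 2 =
        (cx.h s + cx.h1 s * s) ^ 2 * (w0 ^ 2 * w1 ^ 2) := by ring
      rw [this, h0, h1]; rfl
    rw [e]; exact cx_kM_le hs

theorem cx_v_ge : 1 ≤ cx.v s := by
  have := cx_good.fpos s hs
  unfold Co.v; nlinarith [mul_nonneg hs this]

theorem cx_p_ge : 1 ≤ cx.p s := by
  have := cx_good.hpos s hs
  unfold Co.p; nlinarith [mul_nonneg hs this]

end coef

theorem PZ_le : ∀ t a b c d : Fin 6, |PZ t a b c d| ≤ 40 := by decide +kernel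

theorem push4_le {F : Fin 6 → Fin 6 → ℝ} (hF : ∀ i a, |F i a| ≤ 1) {T : T4} {B : ℝ}
    (hT : ∀ a b c d, |T a b c d| ≤ B) (i j k l : Fin 6) : |push4 F T i j k l| ≤ 1296 * B := by
  unfold push4
  rw [sum4]
  refine (Finset.abs_sum_le_sum_abs _ _).trans ?_
  refine (Finset.sum_le_sum (g := fun _ => B) fun q _ => ?_).trans ?_
  · have h := bm (bm (bm (bm (hF i q.1) (hF j q.2.1)) (hF k q.2.2.1)) (hF l q.2.2.2))
      (hT q.1 q.2.1 q.2.2.1 q.2.2.2)
    calc _ ≤ _ := h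
      _ = B := by ring
  · simp

theorem P_le (i j k l : Fin 6) (x : E 6) :
    |P cx.met i j k l x| ≤ 2620200960 / (1 + sq x) ^ 2 := by
  have hs := sq_nonneg' x
  obtain ⟨U, w0, w1, hU, h0, h1, hG, hR⟩ := Co.exists_good_frame cx_good x
  rw [P_frame cx.met x hG, hR]
  have hu : 0 < 1 + sq x := by positivity
  have hw0 : |w0| ≤ 1 := by
    rw [← sq_le_one_iff_abs_le_one, h0]
    exact (div_le_one (by linarith [cx_v_ge hs])).mpr (cx_v_ge hs)
  have hw1 : |w1| ≤ 1 := by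
    rw [← sq_le_one_iff_abs_le_one, h1]
    exact (div_le_one (by linarith [cx_p_ge hs])).mpr (cx_p_ge hs)
  have hsc : ∀ i a, |sc U w0 w1 i a| ≤ 1 := by
    intro i a
    unfold sc
    have : |(if a = 0 then w0 else if a = 1 then w1 else 1)| ≤ 1 := by
      split_ifs
      · exact hw0
      · exact hw1
      · simp
    simpa using bm (hU i a) this
  have hT : ∀ a b c d, |fP (cur (cx.co (sq x) w0 w1)) a b c d| ≤
      6 * (16848 / (1 + sq x) ^ 2 / 2 * 40) := by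
    intro a b c d
    rw [fP_cur]
    refine (Finset.abs_sum_le_sum_abs _ _).trans ?_
    refine (Finset.sum_le_sum (g := fun _ => 16848 / (1 + sq x) ^ 2 / 2 * 40) fun t _ => ?_).trans
      (by simp)
    refine bm ?_ ?_
    · rw [abs_div, abs_of_pos (by norm_num : (0 : ℝ) < 2)]
      exact div_le_div_of_nonneg_right (cx_co_le hs h0 h1 t) (by norm_num)
    · have := PZ_le t a b c d
      exact_mod_cast this
  refine (push4_le hsc hT i j k l).trans (le_of_eq ?_)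
  field_simp
  norm_num

end Pool.Agent.Y490.GBC
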