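import Mathlib

/-!
The Gauss-Bonnet-Chern mass of a Riemannian metric on `ℝⁿ`: definitions in coordinates.
-/

open Filter MeasureTheory
open scoped Topology ContDiff

set_option autoImplicit false

noncomputable section

namespace Pool.Agent.Y490.GBC

/-- The space `ℝⁿ`. -/
abbrev E (n : ℕ) : Type := EuclideanSpace ℝ (Fin n)

/-- The partial derivative `∂ᵢ f` at `x`. -/
def pd {n : ℕ} (i : Fin n) (f : E n → ℝ) (x : E n) : ℝ :=
  fderiv ℝ f x (EuclideanSpace.single i 1)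

/-- A metric tensor on `ℝⁿ` in the standard coordinates: `g x i j` is `g_{ij}(x)`. -/
abbrev Met (n : ℕ) : Type := E n → Matrix (Fin n) (Fin n) ℝ

/-- `g` is a smooth Riemannian metric on `ℝⁿ`: the `g_{ij}` are smooth functions and `(g_{ij}(x))` is
a positive definite symmetric matrix for every `x`. -/
structure IsRiemannian {n : ℕ} (g : Met n) : Prop where
  smooth : ∀ i j, ContDiff ℝ ∞ fun x => g x i j
  posDef : ∀ x, (g x).PosDef

variable {n : ℕ}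

/-- The Christoffel symbol `Γᵏᵢⱼ = ½ gᵏˡ (∂ᵢ gⱼₗ + ∂ⱼ gᵢₗ - ∂ₗ gᵢⱼ)`. -/
def Chr (g : Met n) (k i j : Fin n) (x : E n) : ℝ :=
  1 / 2 * ∑ l, (g x)⁻¹ k l *
    (pd i (fun y => g y j l) x + pd j (fun y => g y i l) x - pd l (fun y => g y i j) x)

/-- The Riemann curvature tensor `R_{ijkl} = g_{km} R^m_{lij}`, where `R^m_{lij} =
∂ᵢ Γᵐⱼₗ - ∂ⱼ Γᵐᵢₗ + Γᵐᵢₚ Γᵖⱼₗ - Γᵐⱼₚ Γᵖᵢₗ`, so that `R_{ijij}` is the sectional curvature of the
`(i, j)`-plane in an orthonormal frame. -/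
def Rm (g : Met n) (i j k l : Fin n) (x : E n) : ℝ :=
  ∑ m, g x k m * (pd i (Chr g m j l) x - pd j (Chr g m i l) x +
    ∑ p, (Chr g m i p x * Chr g p j l x - Chr g m j p x * Chr g p i l x))

/-- The Ricci tensor `R_{jl} = gⁱᵏ R_{ijkl}`. -/
def Ric (g : Met n) (j l : Fin n) (x : E n) : ℝ := ∑ i, ∑ k, (g x)⁻¹ i k * Rm g i j k l x

/-- The scalar curvature `R = gʲˡ R_{jl}`. -/
def Scal (g : Met n) (x : E n) : ℝ := ∑ j, ∑ l, (g x)⁻¹ j l * Ric g j l x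

/-- `R^{ijkl}`: the Riemann tensor with raised indices. -/
def RmU (g : Met n) (i j k l : Fin n) (x : E n) : ℝ :=
  ∑ a, ∑ b, ∑ c, ∑ d,
    (g x)⁻¹ i a * (g x)⁻¹ j b * (g x)⁻¹ k c * (g x)⁻¹ l d * Rm g a b c d x

/-- `R^{ij}`: the Ricci tensor with raised indices. -/
def RicU (g : Met n) (i j : Fin n) (x : E n) : ℝ :=
  ∑ a, ∑ b, (g x)⁻¹ i a * (g x)⁻¹ j b * Ric g a b x

/-- `P^{ijkl} = R^{ijkl} + R^{jk} g^{il} - R^{jl} g^{ik} - R^{ik} g^{jl} + R^{il} g^{jk}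
+ ½ R (g^{ik} g^{jl} - g^{il} g^{jk})`. -/
def P (g : Met n) (i j k l : Fin n) (x : E n) : ℝ :=
  RmU g i j k l x + RicU g j k x * (g x)⁻¹ i l - RicU g j l x * (g x)⁻¹ i k -
    RicU g i k x * (g x)⁻¹ j l + RicU g i l x * (g x)⁻¹ j k +
    1 / 2 * Scal g x * ((g x)⁻¹ i k * (g x)⁻¹ j l - (g x)⁻¹ i l * (g x)⁻¹ j k)

/-- The Gauss-Bonnet curvature `L₂ = P^{ijkl} R_{ijkl}`. -/
def L2 (g : Met n) (x : E n) : ℝ := ∑ i, ∑ j, ∑ k, ∑ l, P g i j k l x * Rm g i j k l x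

/-- `g` is asymptotically flat of decay order `τ` in the standard coordinates: outside a compact set
`g_{ij} - δ_{ij} = O(r^{-τ})`, `∂g_{ij} = O(r^{-τ-1})`, `∂²g_{ij} = O(r^{-τ-2})`. -/
def AsympFlat (g : Met n) (τ : ℝ) : Prop :=
  ∃ C r₀ : ℝ, ∀ x : E n, r₀ ≤ ‖x‖ → 0 < ‖x‖ ∧ ∀ i j : Fin n,
    |g x i j - (1 : Matrix (Fin n) (Fin n) ℝ) i j| ≤ C * ‖x‖ ^ (-τ) ∧
    (∀ k, |pd k (fun y => g y i j) x| ≤ C * ‖x‖ ^ (-τ - 1)) ∧
    ∀ k l, |pd l (pd k fun y => g y i j) x| ≤ C * ‖x‖ ^ (-τ - 2)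

/-- The surface measure of the unit sphere of `ℝⁿ`. -/
def sphereMeasure (n : ℕ) : Measure (Metric.sphere (0 : E n) 1) := (volume : Measure (E n)).toSphere

/-- The integral `∫_{S_r} P^{ijkl} ∂ₗ gⱼₖ νᵢ dS` over the sphere of radius `r`. -/
def flux (g : Met n) (r : ℝ) : ℝ :=
  r ^ (n - 1) * ∫ ν : Metric.sphere (0 : E n) 1,
    (∑ i, ∑ j, ∑ k, ∑ l, P g i j k l (r • (ν : E n)) *
      pd l (fun y => g y j k) (r • (ν : E n)) * (ν : E n) i) ∂(sphereMeasure n)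

/-- The constant `c₂(n) = (n-4)! / (2 (n-1)! ω_{n-1})`. -/
def c₂ (n : ℕ) : ℝ :=
  (n - 4).factorial / (2 * (n - 1).factorial * (sphereMeasure n Set.univ).toReal)

/-- The Gauss-Bonnet-Chern mass of `g` is `m`. -/
def HasGBCMass (g : Met n) (m : ℝ) : Prop :=
  Tendsto (fun r => c₂ n * flux g r) atTop (𝓝 m)

/-- The `g`-length of the curve `γ` on `[0, 1]`. -/
def glength (g : Met n) (γ : ℝ → E n) : ℝ :=
  ∫ t in (0 : ℝ)..1, √(∑ i, ∑ j, g (γ t) i j * deriv γ t i * deriv γ t j)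

/-- The Riemannian distance of `g`: the infimum of the lengths of the `C¹` curves from `x` to `y`. -/
def gdist (g : Met n) (x y : E n) : ℝ :=
  sInf {L | ∃ γ : ℝ → E n, ContDiff ℝ 1 γ ∧ γ 0 = x ∧ γ 1 = y ∧ L = glength g γ}

/-- The metric `g` is complete: every Cauchy sequence for its distance converges. -/
def IsCompleteMetric (g : Met n) : Prop :=
  ∀ u : ℕ → E n, (∀ ε > 0, ∃ N, ∀ k ≥ N, ∀ m ≥ N, gdist g (u k) (u m) < ε) →
    ∃ x, Tendsto u atTop (𝓝 x)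

/-- `(ℝⁿ, g)` is isometric to the Euclidean space `ℝⁿ`: there is a smooth bijection
`φ : ℝⁿ → ℝⁿ` with `φ^* δ = g`. -/
def IsometricToEuclidean (g : Met n) : Prop :=
  ∃ φ : E n → E n, Function.Bijective φ ∧ ContDiff ℝ ∞ φ ∧
    ∀ x i j, ∑ m, pd i (fun y => φ y m) x * pd j (fun y => φ y m) x = g x i j

/-- The rigidity assertion of Q1 for metrics on `ℝⁿ`: if `g` is complete, asymptotically flat of order
`τ > (n-4)/3`, if `L₂` is integrable and nonnegative and the Gauss-Bonnet-Chern mass is zero, then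
`(ℝⁿ, g)` is isometric to Euclidean space. -/
def Rigidity (n : ℕ) : Prop :=
  ∀ (g : Met n) (τ : ℝ), IsRiemannian g → IsCompleteMetric g → ((n : ℝ) - 4) / 3 < τ →
    AsympFlat g τ → Integrable (fun x => L2 g x * √(g x).det) → (∀ x, 0 ≤ L2 g x) →
    HasGBCMass g 0 → IsometricToEuclidean g

/-- The same assertion for metrics of nonnegative scalar curvature. -/
def RigidityScal (n : ℕ) : Prop :=
  ∀ (g : Met n) (τ : ℝ), IsRiemannian g → IsCompleteMetric g → ((n : ℝ) - 4) / 3 < τ →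
    AsympFlat g τ → Integrable (fun x => L2 g x * √(g x).det) → (∀ x, 0 ≤ L2 g x) →
    (∀ x, 0 ≤ Scal g x) → HasGBCMass g 0 → IsometricToEuclidean g

/-- The vector `Jx = (-x₁, x₀, -x₃, x₂, -x₅, x₄)` of `ℝ⁶`. -/
def Jx (x : E 6) : Fin 6 → ℝ := ![-x 1, x 0, -x 3, x 2, -x 5, x 4]

/-- The metric `g = δ + 36 x ⊗ x / (1 + |x|²)³ + 12 Jx ⊗ Jx / (1 + |x|²)²` on `ℝ⁶`. -/
def gJ : Met 6 := fun x => Matrix.of fun i j =>
  (if i = j then 1 else 0) + 36 / (1 + ‖x‖ ^ 2) ^ 3 * (x i * x j) +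
    12 / (1 + ‖x‖ ^ 2) ^ 2 * (Jx x i * Jx x j)

end Pool.Agent.Y490.GBC
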