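import Pool.Agent.Y490.GBC.FrameR

/-!
`L₂` and the scalar curvature of the metrics `δ + f x ⊗ x + h Jx ⊗ Jx`; the explicit metric.
-/

open Filter MeasureTheory
open scoped Topology ContDiff

set_option autoImplicit false
set_option maxHeartbeats 4000000

noncomputable section

namespace Pool.Agent.Y490.GBC

namespace Co

variable (c : Co)

def kA (s : ℝ) : ℝ := (c.f s / c.v s + c.f1 s / c.v s * s + c.k3 s * s + c.k4 s * s ^ 2 -
  3 * c.h s - 6 * c.h1 s * s) * (1 / c.v s * (1 / c.p s))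
def kB (s : ℝ) : ℝ := (c.f s / c.v s + c.f1 s / c.v s * s) * (1 / c.v s)
def kC (s : ℝ) : ℝ := (c.f s / c.v s + c.k3 s * s) * (1 / c.p s)
def kD (s : ℝ) : ℝ := c.f s / c.v s
def kM (s : ℝ) : ℝ := (c.h s + c.h1 s * s) ^ 2 * (1 / c.v s * (1 / c.p s))

/-- `L₂` as a function of `|x|²`. -/
def ell (s : ℝ) : ℝ := 48 * c.kA s * (c.kD s - c.h s) + 96 * c.kB s * c.kC s +
  96 * (c.kB s + c.kC s) * (c.kD s - c.h s) + 24 * c.kD s ^ 2 - 48 * c.kD s * c.h s +
  120 * c.h s ^ 2 + 96 * c.kM s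

/-- The scalar curvature as a function of `|x|²`. -/
def sca (s : ℝ) : ℝ := 2 * c.kA s + 8 * c.kB s + 8 * c.kC s + 12 * c.kD s - 12 * c.h s

variable {c}

theorem exists_good_frame (hc : c.Good) (x : E 6) : ∃ (U : Fin 6 → Fin 6 → ℝ) (w0 w1 : ℝ),
    (∀ i j, |U i j| ≤ 1) ∧ w0 ^ 2 = 1 / c.v (sq x) ∧ w1 ^ 2 = 1 / c.p (sq x) ∧
    (∀ i j, (c.met x)⁻¹ i j = ∑ a, sc U w0 w1 i a * sc U w0 w1 j a) ∧
    hat4 (sc U w0 w1) (fun i j k l => Rm c.met i j k l x) = cur (c.co (sq x) w0 w1) := by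
  obtain ⟨U, r, hF⟩ := exists_frame x
  have hv := hc.v_pos (sq_nonneg' x)
  have hp := hc.p_pos (sq_nonneg' x)
  have h0 : √(1 / c.v (sq x)) ^ 2 = 1 / c.v (sq x) := Real.sq_sqrt (by positivity)
  have h1 : √(1 / c.p (sq x)) ^ 2 = 1 / c.p (sq x) := Real.sq_sqrt (by positivity)
  refine ⟨U, √(1 / c.v (sq x)), √(1 / c.p (sq x)), fun i j => ?_, h0, h1,
    fun i j => gi_frame hc hF h0 h1 i j, ?_⟩
  · have h := hF.row i i
    have h2 : U i j * U i j ≤ ∑ a, U i a * U i a :=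
      Finset.single_le_sum (f := fun a => U i a * U i a) (fun a _ => mul_self_nonneg _)
        (Finset.mem_univ j)
    rw [h] at h2
    have h3 : dl i i = 1 := by simp [dl]
    rw [h3] at h2
    exact abs_le_one_iff_mul_self_le_one.mpr h2
  · rw [← rm_frame hF]
    congr 1
    funext i j k l
    exact Rm_eq hc x i j k l

theorem L2_eq (hc : c.Good) (x : E 6) : L2 c.met x = c.ell (sq x) := by
  obtain ⟨U, w0, w1, -, h0, h1, hG, hR⟩ := exists_good_frame hc x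
  rw [L2_frame c.met x hG, hR, pair_cur]
  have e : ∑ t, ∑ u, c.co (sq x) w0 w1 t * c.co (sq x) w0 w1 u * (gtab t u : ℝ) =
      48 * ((c.f (sq x) / c.v (sq x) + c.f1 (sq x) / c.v (sq x) * sq x + c.k3 (sq x) * sq x +
        c.k4 (sq x) * sq x ^ 2 - 3 * c.h (sq x) - 6 * c.h1 (sq x) * sq x) * (w0 ^ 2 * w1 ^ 2)) *
        (c.kD (sq x) - c.h (sq x)) + 96 * ((c.f (sq x) / c.v (sq x) +
          c.f1 (sq x) / c.v (sq x) * sq x) * w0 ^ 2) *
          ((c.f (sq x) / c.v (sq x) + c.k3 (sq x) * sq x) * w1 ^ 2) +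
      96 * (((c.f (sq x) / c.v (sq x) +
          c.f1 (sq x) / c.v (sq x) * sq x) * w0 ^ 2) +
          ((c.f (sq x) / c.v (sq x) + c.k3 (sq x) * sq x) * w1 ^ 2)) *
          (c.kD (sq x) - c.h (sq x)) + 24 * c.kD (sq x) ^ 2 - 48 * c.kD (sq x) * c.h (sq x) +
      120 * c.h (sq x) ^ 2 +
      96 * ((c.h (sq x) + c.h1 (sq x) * sq x) ^ 2 * (w0 ^ 2 * w1 ^ 2)) := by
    simp [Fin.sum_univ_six, gtab, co, kD]
    ring
  rw [e, h0, h1]
  rfl

theorem Scal_eq (hc : c.Good) (x : E 6) : Scal c.met x = c.sca (sq x) := by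
  obtain ⟨U, w0, w1, -, h0, h1, hG, hR⟩ := exists_good_frame hc x
  rw [Scal_frame c.met x hG, hR, fscal_cur]
  have e : ∑ t, c.co (sq x) w0 w1 t * (stab t : ℝ) =
      2 * ((c.f (sq x) / c.v (sq x) + c.f1 (sq x) / c.v (sq x) * sq x + c.k3 (sq x) * sq x +
        c.k4 (sq x) * sq x ^ 2 - 3 * c.h (sq x) - 6 * c.h1 (sq x) * sq x) * (w0 ^ 2 * w1 ^ 2)) +
      8 * ((c.f (sq x) / c.v (sq x) + c.f1 (sq x) / c.v (sq x) * sq x) * w0 ^ 2) +
      8 * ((c.f (sq x) / c.v (sq x) + c.k3 (sq x) * sq x) * w1 ^ 2) + 12 * c.kD (sq x) -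
      12 * c.h (sq x) := by
    simp [Fin.sum_univ_six, stab, co, kD]
    ring
  rw [e, h0, h1]
  rfl

end Co

/-- The coefficients of the metric of the counterexample:
`f = 36 / (1 + s)³`, `h = 12 / (1 + s)²`. -/
def cx : Co where
  f s := 36 / (1 + s) ^ 3
  f1 s := -108 / (1 + s) ^ 4
  f2 s := 432 / (1 + s) ^ 5
  h s := 12 / (1 + s) ^ 2
  h1 s := -24 / (1 + s) ^ 3
  h2 s := 72 / (1 + s) ^ 4

theorem hasDerivAt_inv_pow (a s : ℝ) (k : ℕ) (hs : 0 ≤ s) :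
    HasDerivAt (fun s => a / (1 + s) ^ k) (-(a * k) / (1 + s) ^ (k + 1)) s := by
  have h1 : HasDerivAt (fun s : ℝ => 1 + s) 1 s := (hasDerivAt_id s).const_add 1
  have h2 := (h1.pow k)
  have h3 : ((1 + s) ^ k : ℝ) ≠ 0 := by positivity
  have h4 := (hasDerivAt_const s a).div h2 h3
  refine h4.congr_deriv ?_
  have : (1 + s : ℝ) ≠ 0 := by positivity
  rcases k with _ | k
  · simp
  · simp only [Nat.add_sub_cancel]
    field_simp
    simp
    ring

theorem cx_good : cx.Good where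
  hf s hs := (hasDerivAt_inv_pow 36 s 3 hs).congr_deriv (by simp [cx]; norm_num)
  hf1 s hs := (hasDerivAt_inv_pow (-108) s 4 hs).congr_deriv (by simp [cx]; norm_num)
  hh s hs := (hasDerivAt_inv_pow 12 s 2 hs).congr_deriv (by simp [cx]; norm_num)
  hh1 s hs := (hasDerivAt_inv_pow (-24) s 3 hs).congr_deriv (by simp [cx]; norm_num)
  fpos s hs := by simp only [cx]; positivity
  hpos s hs := by simp only [cx]; positivity

/-- `(1 + s)³ + 36 s`. -/
def pa (s : ℝ) : ℝ := (1 + s) ^ 3 + 36 * s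
/-- `(1 + s)² + 12 s`. -/
def pb (s : ℝ) : ℝ := (1 + s) ^ 2 + 12 * s

section formulas

variable {s : ℝ} (hs : 0 ≤ s)

include hs

theorem pa_pos : 0 < pa s := by unfold pa; positivity
theorem pb_pos : 0 < pb s := by unfold pb; positivity

theorem cx_v : cx.v s = pa s / (1 + s) ^ 3 := by
  have h : (1 + s) ≠ 0 := by positivity
  simp only [Co.v, cx, pa]; field_simp

theorem cx_p : cx.p s = pb s / (1 + s) ^ 2 := by
  have h : (1 + s) ≠ 0 := by positivity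
  simp only [Co.p, cx, pb]; field_simp

theorem cx_kD : cx.kD s = 36 / pa s := by
  have h : (1 + s) ≠ 0 := by positivity
  have ha := (pa_pos hs).ne'
  simp only [Co.kD, cx_v hs]
  simp only [cx]
  field_simp

theorem cx_kB : cx.kB s = 36 * (1 + s) ^ 2 * (1 - 2 * s) / pa s ^ 2 := by
  have h : (1 + s) ≠ 0 := by positivity
  have ha := (pa_pos hs).ne'
  simp only [Co.kB, cx_v hs]
  simp only [cx]
  field_simp
  ring

theorem cx_k3 : cx.k3 s = (864 / (1 + s) ^ 2 + 24) / pa s + 144 / (1 + s) ^ 4 := by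
  have h : (1 + s) ≠ 0 := by positivity
  have ha := (pa_pos hs).ne'
  simp only [Co.k3, cx_v hs]
  simp only [cx]
  field_simp
  ring

theorem cx_k4 : cx.k4 s = (-2592 / pa s - 2304 / pb s - 144) / (1 + s) ^ 4 := by
  have h : (1 + s) ≠ 0 := by positivity
  have ha := (pa_pos hs).ne'
  have hb := (pb_pos hs).ne'
  simp only [Co.k4, cx_v hs, cx_p hs]
  simp only [cx]
  field_simp
  ring

theorem cx_kC : cx.kC s = (36 + 1176 * s + 7656 * s ^ 2 + 1584 * s ^ 3 + 276 * s ^ 4 + 24 * s ^ 5) /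
    (pa s * pb s * (1 + s) ^ 2) := by
  have h : (1 + s) ≠ 0 := by positivity
  have ha := (pa_pos hs).ne'
  have hb := (pb_pos hs).ne'
  simp only [Co.kC, cx_v hs, cx_p hs, cx_k3 hs]
  simp only [cx]
  field_simp
  simp only [pa]
  ring

theorem cx_kM : cx.kM s = 144 * (1 - s) ^ 2 / (pa s * pb s * (1 + s)) := by
  have h : (1 + s) ≠ 0 := by positivity
  have ha := (pa_pos hs).ne'
  have hb := (pb_pos hs).ne'
  simp only [Co.kM, cx_v hs, cx_p hs]
  simp only [cx]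
  field_simp
  ring

theorem cx_kA : cx.kA s = (-264 * s + 1404 * s ^ 2 + 13572 * s ^ 3 + 1128 * s ^ 4 - 432 * s ^ 5 -
    36 * s ^ 6 - 12 * s ^ 7) * (1 + s) / (pa s ^ 2 * pb s ^ 2) := by
  have h : (1 + s) ≠ 0 := by positivity
  have ha := (pa_pos hs).ne'
  have hb := (pb_pos hs).ne'
  simp only [Co.kA, cx_v hs, cx_p hs, cx_k3 hs, cx_k4 hs]
  simp only [cx]
  field_simp
  simp only [pa, pb]
  ring

theorem cx_ell : cx.ell s = (331776 + 16367616 * s + 309799296 * s ^ 2 + 2273719680 * s ^ 3 +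
    7361290368 * s ^ 4 + 34686071424 * s ^ 5 + 8630136576 * s ^ 6 + 2649210624 * s ^ 7 +
    66044160 * s ^ 8 - 44188416 * s ^ 9 - 5374080 * s ^ 10 + 127872 * s ^ 11 + 79488 * s ^ 12 +
    10368 * s ^ 13) / (pa s ^ 3 * pb s ^ 2 * (1 + s) ^ 4) := by
  have h : (1 + s) ≠ 0 := by positivity
  have ha := (pa_pos hs).ne'
  have hb := (pb_pos hs).ne'
  simp only [Co.ell, cx_kA hs, cx_kB hs, cx_kC hs, cx_kD hs, cx_kM hs]
  simp only [cx]
  field_simp
  simp only [pa, pb]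
  ring

theorem cx_sca : cx.sca s = (864 + 47328 * s + 846072 * s ^ 2 + 4706496 * s ^ 3 -
    1683648 * s ^ 4 + 3587328 * s ^ 5 + 220464 * s ^ 6 - 4032 * s ^ 7 - 4320 * s ^ 8 +
    288 * s ^ 9 + 24 * s ^ 10) / (pa s ^ 2 * pb s ^ 2 * (1 + s) ^ 2) := by
  have h : (1 + s) ≠ 0 := by positivity
  have ha := (pa_pos hs).ne'
  have hb := (pb_pos hs).ne'
  simp only [Co.sca, cx_kA hs, cx_kB hs, cx_kC hs, cx_kD hs]
  simp only [cx]
  field_simp
  simp only [pa, pb]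
  ring

theorem cx_ell_pos : 0 < cx.ell s := by
  rw [cx_ell hs]
  have ha := pa_pos hs
  have hb := pb_pos hs
  refine div_pos ?_ (by positivity)
  have key : 0 < 2649210624 + 66044160 * s - 44188416 * s ^ 2 - 5374080 * s ^ 3 +
      127872 * s ^ 4 + 79488 * s ^ 5 + 10368 * s ^ 6 := by
    nlinarith [mul_nonneg hs (sq_nonneg (s - 6)), mul_nonneg (pow_nonneg hs 2) (sq_nonneg (s - 6)),
      mul_nonneg (pow_nonneg hs 3) (sq_nonneg (s - 6)),
      mul_nonneg (pow_nonneg hs 4) (sq_nonneg (s - 6)), sq_nonneg (s - 6),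
      pow_nonneg hs 2, pow_nonneg hs 3, pow_nonneg hs 4, pow_nonneg hs 5, pow_nonneg hs 6,
      mul_nonneg hs (sq_nonneg (s - 7)), mul_nonneg (pow_nonneg hs 2) (sq_nonneg (s - 7)),
      mul_nonneg (pow_nonneg hs 3) (sq_nonneg (s - 7)),
      mul_nonneg (pow_nonneg hs 4) (sq_nonneg (s - 7)), sq_nonneg (s - 7),
      mul_nonneg hs (sq_nonneg (s - 5)), mul_nonneg (pow_nonneg hs 2) (sq_nonneg (s - 5)),
      mul_nonneg (pow_nonneg hs 3) (sq_nonneg (s - 5)),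
      mul_nonneg (pow_nonneg hs 4) (sq_nonneg (s - 5)), sq_nonneg (s - 5)]
  have h7 : 0 ≤ s ^ 7 * (2649210624 + 66044160 * s - 44188416 * s ^ 2 - 5374080 * s ^ 3 +
      127872 * s ^ 4 + 79488 * s ^ 5 + 10368 * s ^ 6) := by positivity
  have h0 : 0 < 331776 + 16367616 * s + 309799296 * s ^ 2 + 2273719680 * s ^ 3 +
    7361290368 * s ^ 4 + 34686071424 * s ^ 5 + 8630136576 * s ^ 6 := by positivity
  nlinarith

theorem cx_sca_pos : 0 < cx.sca s := by
  rw [cx_sca hs]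
  have ha := pa_pos hs
  have hb := pb_pos hs
  refine div_pos ?_ (by positivity)
  have key : 0 < 220464 - 4032 * s - 4320 * s ^ 2 + 288 * s ^ 3 + 24 * s ^ 4 := by
    nlinarith [mul_nonneg hs (sq_nonneg (s - 6)), mul_nonneg (pow_nonneg hs 2) (sq_nonneg (s - 6)),
      sq_nonneg (s - 6), pow_nonneg hs 2, pow_nonneg hs 3, pow_nonneg hs 4,
      mul_nonneg hs (sq_nonneg (s - 7)), mul_nonneg (pow_nonneg hs 2) (sq_nonneg (s - 7)),
      sq_nonneg (s - 7)]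
  have h6 : 0 ≤ s ^ 6 * (220464 - 4032 * s - 4320 * s ^ 2 + 288 * s ^ 3 + 24 * s ^ 4) := by
    positivity
  have h3 : 0 ≤ s ^ 3 * (4706496 - 1683648 * s + 3587328 * s ^ 2) := by
    refine mul_nonneg (by positivity) ?_
    nlinarith [sq_nonneg (s - 1)]
  have h0 : 0 < 864 + 47328 * s + 846072 * s ^ 2 := by positivity
  nlinarith

end formulas

end Pool.Agent.Y490.GBC
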