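import Pool.Agent.Y490.GBC.Decay

/-!
Asymptotic flatness of the explicit metric.
-/

open Filter MeasureTheory
open scoped Topology ContDiff

set_option autoImplicit false
set_option maxHeartbeats 4000000

noncomputable section

namespace Pool.Agent.Y490.GBC

theorem abs_coord_le (x : E 6) (i : Fin 6) : |x i| ≤ ‖x‖ := by
  have := PiLp.norm_apply_le x i
  rwa [Real.norm_eq_abs] at this

theorem abs_yy_le (x : E 6) (i : Fin 6) : |yy x i| ≤ ‖x‖ := by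
  rw [yy_eq]
  fin_cases i <;> simp only [Matrix.cons_val, abs_neg, Fin.zero_eta, Fin.mk_one, Fin.reduceFinMk] <;>
    exact abs_coord_le x _

theorem abs_dl_le (i j : Fin 6) : |dl i j| ≤ 1 := by
  unfold dl; split_ifs <;> simp

theorem abs_J_le (i j : Fin 6) : |J i j| ≤ 1 := by
  unfold J
  have : ∀ i j, |JZ i j| ≤ 1 := by decide
  exact_mod_cast this i j

/-- The first derivatives of the metric. -/
def dg (i j k : Fin 6) (x : E 6) : ℝ :=
  2 * cx.f1 (sq x) * (x k * (x i * x j)) + cx.f (sq x) * (dl i k * x j + x i * dl j k) +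
    2 * cx.h1 (sq x) * (x k * (yy x i * yy x j)) + cx.h (sq x) * (J i k * yy x j + yy x i * J j k)

theorem pd_met (i j k : Fin 6) : pd k (fun y => cx.met y i j) = dg i j k := by
  funext x
  rw [(Co.hasPd_met cx_good x i j).pd]
  unfold dg; ring

theorem cx_hf2 {s : ℝ} (hs : 0 ≤ s) : HasDerivAt cx.f1 (cx.f2 s) s := cx_good.hf1 s hs

theorem hasPd_dg (i j k : Fin 6) (x : E 6) : HasPd (dg i j k) (fun l =>
    (4 * cx.f2 (sq x) * x l * (x k * (x i * x j)) +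
      2 * cx.f1 (sq x) * (dl k l * (x i * x j) + x k * (dl i l * x j + x i * dl j l))) +
    (2 * cx.f1 (sq x) * x l * (dl i k * x j + x i * dl j k) +
      cx.f (sq x) * (dl i k * dl j l + dl i l * dl j k)) +
    (4 * cx.h2 (sq x) * x l * (x k * (yy x i * yy x j)) +
      2 * cx.h1 (sq x) * (dl k l * (yy x i * yy x j) + x k * (J i l * yy x j + yy x i * J j l))) +
    (2 * cx.h1 (sq x) * x l * (J i k * yy x j + yy x i * J j k) +
      cx.h (sq x) * (J i k * J j l + J i l * J j k))) x := by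
  have hs := sq_nonneg' x
  have f := (hasPd_sq x).comp (cx_good.hf _ hs)
  have f1 := (hasPd_sq x).comp (cx_good.hf1 _ hs)
  have h := (hasPd_sq x).comp (cx_good.hh _ hs)
  have h1 := (hasPd_sq x).comp (cx_good.hh1 _ hs)
  have A := (f1.const_mul 2).mul ((hasPd_x k x).mul ((hasPd_x i x).mul (hasPd_x j x)))
  have B := f.mul (((hasPd_const (dl i k) x).mul (hasPd_x j x)).add
    ((hasPd_x i x).mul (hasPd_const (dl j k) x)))
  have C := (h1.const_mul 2).mul ((hasPd_x k x).mul ((hasPd_y i x).mul (hasPd_y j x)))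
  have D := h.mul (((hasPd_const (J i k) x).mul (hasPd_y j x)).add
    ((hasPd_y i x).mul (hasPd_const (J j k) x)))
  exact (((A.add B).add C).add D).congr fun l => by ring

section bounds

variable (x : E 6)

theorem cx_f_abs : |cx.f (sq x)| ≤ 36 / (1 + sq x) ^ 3 := by
  have hs := sq_nonneg' x
  simp only [cx]; rw [abs_of_pos (by positivity)]

theorem cx_f1_abs : |cx.f1 (sq x)| ≤ 108 / (1 + sq x) ^ 4 := by
  have hs := sq_nonneg' x
  simp only [cx, abs_div, abs_neg]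
  rw [abs_of_pos (by norm_num : (0 : ℝ) < 108), abs_of_pos (by positivity)]

theorem cx_f2_abs : |cx.f2 (sq x)| ≤ 432 / (1 + sq x) ^ 5 := by
  have hs := sq_nonneg' x
  simp only [cx]; rw [abs_of_pos (by positivity)]

theorem cx_h_abs : |cx.h (sq x)| ≤ 12 / (1 + sq x) ^ 2 := by
  have hs := sq_nonneg' x
  simp only [cx]; rw [abs_of_pos (by positivity)]

theorem cx_h1_abs : |cx.h1 (sq x)| ≤ 24 / (1 + sq x) ^ 3 := by
  have hs := sq_nonneg' x
  simp only [cx, abs_div, abs_neg]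
  rw [abs_of_pos (by norm_num : (0 : ℝ) < 24), abs_of_pos (by positivity)]

theorem cx_h2_abs : |cx.h2 (sq x)| ≤ 72 / (1 + sq x) ^ 4 := by
  have hs := sq_nonneg' x
  simp only [cx]; rw [abs_of_pos (by positivity)]

theorem two_abs : |(2 : ℝ)| ≤ 2 := by norm_num
theorem four_abs : |(4 : ℝ)| ≤ 4 := by norm_num

/-- `r ^ a / (1 + r²) ^ b ≤ 1 / (1 + r²) ^ c` if `a + 2 c ≤ 2 b`. -/
theorem pow_div_le {r : ℝ} (hr : 0 ≤ r) (a b c : ℕ) (h : a + 2 * c ≤ 2 * b) (ha : Even a) :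
    r ^ a / (1 + r ^ 2) ^ b ≤ 1 / (1 + r ^ 2) ^ c := by
  obtain ⟨m, hm⟩ := ha
  rw [div_le_div_iff₀ (by positivity) (by positivity), one_mul]
  have h1 : r ^ a ≤ (1 + r ^ 2) ^ m := by
    rw [hm, show m + m = 2 * m by ring, pow_mul]
    exact pow_le_pow_left₀ (by positivity) (by linarith) m
  calc r ^ a * (1 + r ^ 2) ^ c ≤ (1 + r ^ 2) ^ m * (1 + r ^ 2) ^ c := by gcongr
    _ = (1 + r ^ 2) ^ (m + c) := by rw [pow_add]
    _ ≤ (1 + r ^ 2) ^ b := pow_le_pow_right₀ (by nlinarith [sq_nonneg r]) (by omega)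

theorem met_sub_le (i j : Fin 6) : |cx.met x i j - (1 : Matrix (Fin 6) (Fin 6) ℝ) i j| ≤
    48 / (1 + ‖x‖ ^ 2) := by
  have e : cx.met x i j - (1 : Matrix (Fin 6) (Fin 6) ℝ) i j =
      cx.f (sq x) * (x i * x j) + cx.h (sq x) * (yy x i * yy x j) := by
    simp only [Co.met, Matrix.of_apply, dl, Matrix.one_apply]; ring
  rw [e]
  have h := ba (bm (cx_f_abs x) (bm (abs_coord_le x i) (abs_coord_le x j)))
    (bm (cx_h_abs x) (bm (abs_yy_le x i) (abs_yy_le x j)))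
  refine h.trans ?_
  rw [sq_eq_norm]
  have hr := norm_nonneg x
  set r := ‖x‖
  have h1 := pow_div_le hr 2 3 1 (by norm_num) (by decide)
  have h2 := pow_div_le hr 2 2 1 (by norm_num) (by decide)
  have e1 : 36 / (1 + r ^ 2) ^ 3 * (r * r) = 36 * (r ^ 2 / (1 + r ^ 2) ^ 3) := by ring
  have e2 : 12 / (1 + r ^ 2) ^ 2 * (r * r) = 12 * (r ^ 2 / (1 + r ^ 2) ^ 2) := by ring
  have e3 : 48 / (1 + r ^ 2) = 48 * (1 / (1 + r ^ 2) ^ 1) := by rw [pow_one]; ring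
  rw [e1, e2, e3]
  linarith

theorem dg_le (i j k : Fin 6) : |dg i j k x| ≤ 360 * ‖x‖ / (1 + ‖x‖ ^ 2) ^ 2 := by
  unfold dg
  have X := abs_coord_le x
  have Y := abs_yy_le x
  have h := ba (ba (ba (bm (bm two_abs (cx_f1_abs x)) (bm (X k) (bm (X i) (X j))))
    (bm (cx_f_abs x) (ba (bm (abs_dl_le i k) (X j)) (bm (X i) (abs_dl_le j k)))))
    (bm (bm two_abs (cx_h1_abs x)) (bm (X k) (bm (Y i) (Y j)))))
    (bm (cx_h_abs x) (ba (bm (abs_J_le i k) (Y j)) (bm (Y i) (abs_J_le j k))))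
  refine h.trans ?_
  rw [sq_eq_norm]
  have hr := norm_nonneg x
  set r := ‖x‖
  have h1 := mul_le_mul_of_nonneg_left (pow_div_le hr 2 4 2 (by norm_num) (by decide)) hr
  have h2 := mul_le_mul_of_nonneg_left (pow_div_le hr 0 3 2 (by norm_num) (by decide)) hr
  have h3 := mul_le_mul_of_nonneg_left (pow_div_le hr 2 3 2 (by norm_num) (by decide)) hr
  have e1 : 2 * (108 / (1 + r ^ 2) ^ 4) * (r * (r * r)) + 36 / (1 + r ^ 2) ^ 3 * (1 * r + r * 1) +
      2 * (24 / (1 + r ^ 2) ^ 3) * (r * (r * r)) + 12 / (1 + r ^ 2) ^ 2 * (1 * r + r * 1) =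
      216 * (r * (r ^ 2 / (1 + r ^ 2) ^ 4)) + 72 * (r * (r ^ 0 / (1 + r ^ 2) ^ 3)) +
      48 * (r * (r ^ 2 / (1 + r ^ 2) ^ 3)) + 24 * (r * (1 / (1 + r ^ 2) ^ 2)) := by ring
  have e2 : 360 * r / (1 + r ^ 2) ^ 2 = 360 * (r * (1 / (1 + r ^ 2) ^ 2)) := by ring
  rw [e1, e2]
  linarith

theorem ddg_le (i j k l : Fin 6) : |pd l (dg i j k) x| ≤ 5000 / (1 + ‖x‖ ^ 2) ^ 2 := by
  rw [(hasPd_dg i j k x).pd]
  have X := abs_coord_le x
  have Y := abs_yy_le x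
  have h := ba (ba (ba
    (ba (bm (bm (bm four_abs (cx_f2_abs x)) (X l)) (bm (X k) (bm (X i) (X j))))
      (bm (bm two_abs (cx_f1_abs x)) (ba (bm (abs_dl_le k l) (bm (X i) (X j)))
        (bm (X k) (ba (bm (abs_dl_le i l) (X j)) (bm (X i) (abs_dl_le j l)))))))
    (ba (bm (bm (bm two_abs (cx_f1_abs x)) (X l))
      (ba (bm (abs_dl_le i k) (X j)) (bm (X i) (abs_dl_le j k))))
      (bm (cx_f_abs x) (ba (bm (abs_dl_le i k) (abs_dl_le j l))
        (bm (abs_dl_le i l) (abs_dl_le j k))))))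
    (ba (bm (bm (bm four_abs (cx_h2_abs x)) (X l)) (bm (X k) (bm (Y i) (Y j))))
      (bm (bm two_abs (cx_h1_abs x)) (ba (bm (abs_dl_le k l) (bm (Y i) (Y j)))
        (bm (X k) (ba (bm (abs_J_le i l) (Y j)) (bm (Y i) (abs_J_le j l))))))))
    (ba (bm (bm (bm two_abs (cx_h1_abs x)) (X l))
      (ba (bm (abs_J_le i k) (Y j)) (bm (Y i) (abs_J_le j k))))
      (bm (cx_h_abs x) (ba (bm (abs_J_le i k) (abs_J_le j l)) (bm (abs_J_le i l) (abs_J_le j k)))))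
  refine h.trans ?_
  rw [sq_eq_norm]
  have hr := norm_nonneg x
  set r := ‖x‖
  have h1 := pow_div_le hr 4 5 2 (by norm_num) (by decide)
  have h2 := pow_div_le hr 2 4 2 (by norm_num) (by decide)
  have h3 := pow_div_le hr 0 3 2 (by norm_num) (by decide)
  have h4 := pow_div_le hr 4 4 2 (by norm_num) (by decide)
  have h5 := pow_div_le hr 2 3 2 (by norm_num) (by decide)
  have h6 : 0 ≤ 1 / (1 + r ^ 2) ^ 2 := by positivity
  have e1 : 4 * (432 / (1 + r ^ 2) ^ 5) * r * (r * (r * r)) +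
      2 * (108 / (1 + r ^ 2) ^ 4) * (1 * (r * r) + r * (1 * r + r * 1)) +
      (2 * (108 / (1 + r ^ 2) ^ 4) * r * (1 * r + r * 1) +
        36 / (1 + r ^ 2) ^ 3 * (1 * 1 + 1 * 1)) +
      (4 * (72 / (1 + r ^ 2) ^ 4) * r * (r * (r * r)) +
        2 * (24 / (1 + r ^ 2) ^ 3) * (1 * (r * r) + r * (1 * r + r * 1))) +
      (2 * (24 / (1 + r ^ 2) ^ 3) * r * (1 * r + r * 1) +
        12 / (1 + r ^ 2) ^ 2 * (1 * 1 + 1 * 1)) =
      1728 * (r ^ 4 / (1 + r ^ 2) ^ 5) + 1080 * (r ^ 2 / (1 + r ^ 2) ^ 4) +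
      72 * (r ^ 0 / (1 + r ^ 2) ^ 3) + 288 * (r ^ 4 / (1 + r ^ 2) ^ 4) +
      240 * (r ^ 2 / (1 + r ^ 2) ^ 3) + 24 * (1 / (1 + r ^ 2) ^ 2) := by ring
  have e2 : 5000 / (1 + r ^ 2) ^ 2 = 5000 * (1 / (1 + r ^ 2) ^ 2) := by ring
  rw [e1, e2]
  linarith

end bounds

theorem asympFlat_cx : AsympFlat cx.met 2 := by
  refine ⟨5000, 1, fun x hx => ⟨by linarith, fun i j => ⟨?_, fun k => ?_, fun k l => ?_⟩⟩⟩
  · refine (met_sub_le x i j).trans ?_
    have hr : 0 < ‖x‖ := by linarith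
    rw [Real.rpow_neg hr.le, Real.rpow_two, ← div_eq_mul_inv]
    rw [div_le_div_iff₀ (by positivity) (by positivity)]
    nlinarith [sq_nonneg ‖x‖]
  · rw [pd_met]
    refine (dg_le x i j k).trans ?_
    have hr : 0 < ‖x‖ := by linarith
    have e : ‖x‖ ^ (-2 - 1 : ℝ) = (‖x‖ ^ 3)⁻¹ := by
      rw [show (-2 - 1 : ℝ) = -(3 : ℕ) by norm_num, Real.rpow_neg hr.le, Real.rpow_natCast]
    rw [e, ← div_eq_mul_inv, div_le_div_iff₀ (by positivity) (by positivity)]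
    calc 360 * ‖x‖ * ‖x‖ ^ 3 = 360 * (‖x‖ ^ 2) ^ 2 := by ring
      _ ≤ 5000 * (1 + ‖x‖ ^ 2) ^ 2 := by nlinarith [sq_nonneg (‖x‖ ^ 2), sq_nonneg ‖x‖]
  · rw [pd_met]
    refine (ddg_le x i j k l).trans ?_
    have hr : 0 < ‖x‖ := by linarith
    have e : ‖x‖ ^ (-2 - 2 : ℝ) = (‖x‖ ^ 4)⁻¹ := by
      rw [show (-2 - 2 : ℝ) = -(4 : ℕ) by norm_num, Real.rpow_neg hr.le, Real.rpow_natCast]
    rw [e, ← div_eq_mul_inv, div_le_div_iff₀ (by positivity) (by positivity)]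
    nlinarith [sq_nonneg (‖x‖ ^ 2), sq_nonneg ‖x‖]

end Pool.Agent.Y490.GBC
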