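import Pool.Agent.Y490.GBC.Riem
import Pool.Agent.Y490.GBC.Contr

/-!
Adapted orthonormal frames of `ℝ⁶`.
-/

open Filter MeasureTheory
open scoped Topology ContDiff RealInnerProductSpace

set_option autoImplicit false
set_option maxHeartbeats 4000000

noncomputable section

namespace Pool.Agent.Y490.GBC

/-- Euclidean inner product in coordinates. -/
def ip (u w : Fin 6 → ℝ) : ℝ := ∑ i, u i * w i

theorem ip_comm (u w : Fin 6 → ℝ) : ip u w = ip w u :=
  Finset.sum_congr rfl fun _ _ => mul_comm _ _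

theorem ip_smul (r t : ℝ) (u w : Fin 6 → ℝ) :
    ip (fun i => r * u i) (fun i => t * w i) = r * t * ip u w := by
  unfold ip; rw [Finset.mul_sum]; exact Finset.sum_congr rfl fun _ _ => by ring

theorem ip_pos {u : Fin 6 → ℝ} (h : u ≠ 0) : 0 < ip u u := by
  obtain ⟨i, hi⟩ := Function.ne_iff.mp h
  exact Finset.sum_pos' (fun _ _ => mul_self_nonneg _) ⟨i, Finset.mem_univ _, by
    have : u i ≠ 0 := hi
    exact mul_self_pos.mpr this⟩

theorem ip_normalize {u : Fin 6 → ℝ} (h : u ≠ 0) :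
    ip (fun i => (√(ip u u))⁻¹ * u i) (fun i => (√(ip u u))⁻¹ * u i) = 1 := by
  have hp := ip_pos h
  rw [ip_smul, ← mul_inv, Real.mul_self_sqrt hp.le, inv_mul_cancel₀ hp.ne']

theorem exists_unit (k : ℕ) (hk : k < 6) (w : Fin k → Fin 6 → ℝ) :
    ∃ u : Fin 6 → ℝ, ip u u = 1 ∧ ∀ a, ip (w a) u = 0 := by
  obtain ⟨u, hu0, hu⟩ : ∃ u : Fin 6 → ℝ, u ≠ 0 ∧ ∀ a, ip (w a) u = 0 := by
    have h : LinearMap.ker (Matrix.mulVecLin (Matrix.of w)) ≠ ⊥ := by
      refine LinearMap.ker_ne_bot_of_finrank_lt ?_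
      simpa using hk
    obtain ⟨u, hu, hu0⟩ := (Submodule.ne_bot_iff _).mp h
    refine ⟨u, hu0, fun a => ?_⟩
    have := congrFun (LinearMap.mem_ker.mp hu) a
    simpa [Matrix.mulVec, dotProduct, ip] using this
  refine ⟨fun i => (√(ip u u))⁻¹ * u i, ip_normalize hu0, fun a => ?_⟩
  have := ip_smul 1 (√(ip u u))⁻¹ (w a) u
  simp only [one_mul] at this
  rw [this, hu a, mul_zero]

/-- The complex structure on vectors. -/
def jv (u : Fin 6 → ℝ) (i : Fin 6) : ℝ := ∑ j, J i j * u j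

theorem jv_eq (u : Fin 6 → ℝ) : jv u = ![-u 1, u 0, -u 3, u 2, -u 5, u 4] := by
  funext i
  fin_cases i <;> simp [jv, J, JZ, Fin.sum_univ_succ]

theorem jv_jv (u : Fin 6 → ℝ) : jv (jv u) = fun i => -u i := by
  rw [jv_eq, jv_eq]
  funext i
  fin_cases i <;> simp

theorem ip_jv (u w : Fin 6 → ℝ) : ip (jv u) w = -ip u (jv w) := by
  rw [jv_eq, jv_eq]; simp [ip, Fin.sum_univ_six]; ring

theorem ip_jv_jv (u w : Fin 6 → ℝ) : ip (jv u) (jv w) = ip u w := by
  rw [jv_eq, jv_eq]; simp [ip, Fin.sum_univ_six]; ring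

theorem ip_jv_self (u : Fin 6 → ℝ) : ip u (jv u) = 0 := by
  rw [jv_eq]; simp [ip, Fin.sum_univ_six]; ring

theorem jv_smul (r : ℝ) (u : Fin 6 → ℝ) : jv (fun i => r * u i) = fun i => r * jv u i := by
  funext i; unfold jv; rw [Finset.mul_sum]; exact Finset.sum_congr rfl fun _ _ => by ring

/-- An adapted orthonormal frame at `x`. -/
structure Frame (x : E 6) (U : Fin 6 → Fin 6 → ℝ) (r : ℝ) : Prop where
  col : ∀ a b, ∑ i, U i a * U i b = dl a b
  row : ∀ i j, ∑ a, U i a * U j a = dl i j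
  hx : ∀ i, x i = r * U i 0
  hy : ∀ i, yy x i = r * U i 1
  hJ : ∀ i j, J i j = ∑ a, ∑ b, U i a * J a b * U j b
  hr : r * r = sq x

theorem exists_frame (x : E 6) : ∃ (U : Fin 6 → Fin 6 → ℝ) (r : ℝ), Frame x U r := by
  obtain ⟨u0, r, h00, hx, hr⟩ : ∃ (u0 : Fin 6 → ℝ) (r : ℝ), ip u0 u0 = 1 ∧
      (∀ i, x i = r * u0 i) ∧ r * r = sq x := by
    by_cases h0 : (fun i => x i) = (0 : Fin 6 → ℝ)
    · refine ⟨fun i => dl 0 i, 0, ?_, fun i => ?_, ?_⟩
      · simp [ip, dl]
      · rw [zero_mul]; exact congrFun h0 i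
      · have h0' : ∀ i, x i = 0 := fun i => congrFun h0 i
        simp [sq, h0']
    · refine ⟨fun i => (√(sq x))⁻¹ * x i, √(sq x), ip_normalize h0, fun i => ?_, ?_⟩
      · have : 0 < sq x := ip_pos h0
        have h1 : √(sq x) ≠ 0 := (Real.sqrt_pos.mpr this).ne'
        field_simp
      · exact Real.mul_self_sqrt (sq_nonneg' x)
  obtain ⟨u2, h22, hu2⟩ := exists_unit 2 (by norm_num) ![u0, jv u0]
  obtain ⟨u4, h44, hu4⟩ := exists_unit 4 (by norm_num) ![u0, jv u0, u2, jv u2]
  have h02 : ip u0 u2 = 0 := hu2 0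
  have h12 : ip (jv u0) u2 = 0 := hu2 1
  have h04 : ip u0 u4 = 0 := hu4 0
  have h14 : ip (jv u0) u4 = 0 := hu4 1
  have h24 : ip u2 u4 = 0 := hu4 2
  have h34 : ip (jv u2) u4 = 0 := hu4 3
  have h03 : ip u0 (jv u2) = 0 := by have := ip_jv u0 u2; linarith
  have h05 : ip u0 (jv u4) = 0 := by have := ip_jv u0 u4; linarith
  have h25 : ip u2 (jv u4) = 0 := by have := ip_jv u2 u4; linarith
  have h13 := ip_jv_jv u0 u2
  have h15 := ip_jv_jv u0 u4
  have h35 := ip_jv_jv u2 u4
  have h11 := ip_jv_jv u0 u0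
  have h33 := ip_jv_jv u2 u2
  have h55 := ip_jv_jv u4 u4
  have h01 := ip_jv_self u0
  have h23 := ip_jv_self u2
  have h45 := ip_jv_self u4
  set C : Fin 6 → Fin 6 → ℝ := ![u0, jv u0, u2, jv u2, u4, jv u4] with hC
  have hcol : ∀ a b, ip (C a) (C b) = dl a b := by
    have hle : ∀ a b, a ≤ b → ip (C a) (C b) = dl a b := by
      intro a b hab
      fin_cases a <;> fin_cases b <;>
        first
        | (exfalso; revert hab; decide)
        | (simp [hC, dl]; linarith)
        | (simp [hC, dl, h00, h01, h02, h03, h04, h05, h11, h12, h13, h14, h15, h22, h23, h24,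
            h25, h33, h34, h35, h44, h45, h55])
    intro a b
    rcases le_total a b with h | h
    · exact hle a b h
    · rw [ip_comm, dl_comm]; exact hle b a h
  have hCJ : ∀ b i, jv (C b) i = ∑ a, C a i * J a b := by
    intro b i
    have := congrFun (jv_jv u0) i
    have := congrFun (jv_jv u2) i
    have := congrFun (jv_jv u4) i
    fin_cases b <;> simp [hC, J, JZ, Fin.sum_univ_six] <;> assumption
  have hrow : ∀ i j, ∑ a, C a i * C a j = dl i j := by
    have h1 : Matrix.transpose (Matrix.of fun i a => C a i) * (Matrix.of fun i a => C a i) =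
        (1 : Matrix (Fin 6) (Fin 6) ℝ) := by
      ext a b
      rw [Matrix.mul_apply]
      have := hcol a b
      simpa [ip, dl, Matrix.one_apply] using this
    have h2 := mul_eq_one_comm.mp h1
    intro i j
    have := congrFun (congrFun h2 i) j
    rw [Matrix.mul_apply] at this
    simpa [dl, Matrix.one_apply] using this
  refine ⟨fun i a => C a i, r, hcol, hrow, hx, fun i => ?_, fun i j => ?_, hr⟩
  · have h1 : yy x = jv (fun i => r * u0 i) := by
      funext i; unfold yy jv; exact Finset.sum_congr rfl fun j _ => by rw [hx j]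
    rw [h1, jv_smul]; rfl
  · have h1 : ∀ b, ∑ a, C a i * J a b * C b j = jv (C b) i * C b j := by
      intro b; rw [hCJ, Finset.sum_mul]
    rw [Finset.sum_comm]
    simp only [h1]
    have h2 : ∀ b, jv (C b) i * C b j = ∑ m, J i m * (C b m * C b j) := by
      intro b; unfold jv; rw [Finset.sum_mul]; exact Finset.sum_congr rfl fun m _ => by ring
    simp only [h2]
    rw [Finset.sum_comm]
    simp only [← Finset.mul_sum, hrow]
    exact (sum_dl' (fun m => J i m) j).symm

end Pool.Agent.Y490.GBC
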