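import Pool.Agent.Y490.GBC.Pair

/-!
The Riemann tensor of the metrics `δ + f x ⊗ x + h Jx ⊗ Jx` in an orthonormal frame.
-/

open Filter MeasureTheory
open scoped Topology ContDiff

set_option autoImplicit false
set_option maxHeartbeats 4000000

noncomputable section

namespace Pool.Agent.Y490.GBC

abbrev T4 : Type := Fin 6 → Fin 6 → Fin 6 → Fin 6 → ℝ

def X13 (A B : Fin 6 → Fin 6 → ℝ) : T4 := fun i j k l => A i k * B j l
def X14 (A B : Fin 6 → Fin 6 → ℝ) : T4 := fun i j k l => A i l * B j k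
def X12 (A B : Fin 6 → Fin 6 → ℝ) : T4 := fun i j k l => A i j * B k l

variable (F : Fin 6 → Fin 6 → ℝ)

theorem hat4_add (S T : T4) : hat4 F (S + T) = hat4 F S + hat4 F T := by
  funext a b c d
  simp only [hat4, Pi.add_apply, mul_add, Finset.sum_add_distrib]

theorem hat4_smul (r : ℝ) (T : T4) : hat4 F (r • T) = r • hat4 F T := by
  funext a b c d
  simp only [hat4, Pi.smul_apply, smul_eq_mul, Finset.mul_sum]
  refine Finset.sum_congr rfl fun i _ => Finset.sum_congr rfl fun j _ =>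
          Finset.sum_congr rfl fun k _ => Finset.sum_congr rfl fun l _ => ?_
  ring

theorem hat4_sub (S T : T4) : hat4 F (S - T) = hat4 F S - hat4 F T := by
  funext a b c d
  simp only [hat4, Pi.sub_apply, mul_sub, Finset.sum_sub_distrib]

theorem prod22 (f g : Fin 6 → Fin 6 → ℝ) :
    (∑ i, ∑ j, f i j) * (∑ k, ∑ l, g k l) = ∑ i, ∑ j, ∑ k, ∑ l, f i j * g k l := by
  rw [Finset.sum_mul]
  refine Finset.sum_congr rfl fun i _ => ?_
  rw [Finset.sum_mul]
  refine Finset.sum_congr rfl fun j _ => ?_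
  rw [Finset.mul_sum]
  refine Finset.sum_congr rfl fun k _ => ?_
  rw [Finset.mul_sum]

theorem hat4_X12 (A B : Fin 6 → Fin 6 → ℝ) : hat4 F (X12 A B) = X12 (hat2 F A) (hat2 F B) := by
  funext a b c d
  simp only [hat4, hat2, X12, prod22]
  refine Finset.sum_congr rfl fun i _ => Finset.sum_congr rfl fun j _ =>
          Finset.sum_congr rfl fun k _ => Finset.sum_congr rfl fun l _ => ?_
  ring

theorem hat4_X13 (A B : Fin 6 → Fin 6 → ℝ) : hat4 F (X13 A B) = X13 (hat2 F A) (hat2 F B) := by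
  funext a b c d
  simp only [hat4, hat2, X13, prod22]
  refine Finset.sum_congr rfl fun i _ => ?_
  rw [Finset.sum_comm]
  refine Finset.sum_congr rfl fun k _ => Finset.sum_congr rfl fun j _ =>
    Finset.sum_congr rfl fun l _ => ?_
  ring

theorem hat4_X14 (A B : Fin 6 → Fin 6 → ℝ) : hat4 F (X14 A B) = X14 (hat2 F A) (hat2 F B) := by
  funext a b c d
  simp only [hat4, hat2, X14, prod22]
  refine Finset.sum_congr rfl fun i _ => ?_
  calc ∑ j, ∑ k, ∑ l, F i a * F j b * F k c * F l d * (A i l * B j k)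
      = ∑ j, ∑ l, ∑ k, F i a * F j b * F k c * F l d * (A i l * B j k) :=
        Finset.sum_congr rfl fun j _ => Finset.sum_comm
    _ = ∑ l, ∑ j, ∑ k, F i a * F j b * F k c * F l d * (A i l * B j k) := Finset.sum_comm
    _ = _ := by
        refine Finset.sum_congr rfl fun k _ => Finset.sum_congr rfl fun j _ =>
          Finset.sum_congr rfl fun l _ => ?_
        ring

theorem hat2_mul (u w : Fin 6 → ℝ) (a b : Fin 6) :
    hat2 F (fun i j => u i * w j) a b = (∑ i, F i a * u i) * (∑ j, F j b * w j) := by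
  simp only [hat2, Finset.sum_mul_sum]
  refine Finset.sum_congr rfl fun i _ => Finset.sum_congr rfl fun j _ => ?_
  ring

variable {F}

/-- The scaled frame. -/
def sc (U : Fin 6 → Fin 6 → ℝ) (w0 w1 : ℝ) (i a : Fin 6) : ℝ :=
  U i a * (if a = 0 then w0 else if a = 1 then w1 else 1)

def e0 (a : Fin 6) : ℝ := e0Z a
def e1 (a : Fin 6) : ℝ := e1Z a
def Qr (a b : Fin 6) : ℝ := QZ a b
def Omr (a b : Fin 6) : ℝ := OmZ a b

variable {x : E 6} {U : Fin 6 → Fin 6 → ℝ} {r w0 w1 : ℝ}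

theorem sc_x (hF : Frame x U r) (a : Fin 6) : ∑ i, sc U w0 w1 i a * x i = r * w0 * e0 a := by
  have h : ∀ i, sc U w0 w1 i a * x i =
      r * (if a = 0 then w0 else if a = 1 then w1 else 1) * (U i a * U i 0) := by
    intro i; rw [hF.hx i]; unfold sc; ring
  simp only [h, ← Finset.mul_sum, hF.col]
  unfold dl e0 e0Z
  by_cases h0 : a = 0
  · simp [h0]
  · simp [h0]

theorem sc_y (hF : Frame x U r) (a : Fin 6) : ∑ i, sc U w0 w1 i a * yy x i = r * w1 * e1 a := by
  have h : ∀ i, sc U w0 w1 i a * yy x i =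
      r * (if a = 0 then w0 else if a = 1 then w1 else 1) * (U i a * U i 1) := by
    intro i; rw [hF.hy i]; unfold sc; ring
  simp only [h, ← Finset.mul_sum, hF.col]
  unfold dl e1 e1Z
  by_cases h0 : a = 1
  · simp [h0]
  · simp [h0]

theorem hat2_xx (hF : Frame x U r) (a b : Fin 6) :
    hat2 (sc U w0 w1) (fun i j => x i * x j) a b = sq x * w0 ^ 2 * (e0 a * e0 b) := by
  rw [hat2_mul (sc U w0 w1) (fun i => x i) (fun i => x i), sc_x hF, sc_x hF, ← hF.hr]; ring

theorem hat2_yy (hF : Frame x U r) (a b : Fin 6) :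
    hat2 (sc U w0 w1) (fun i j => yy x i * yy x j) a b = sq x * w1 ^ 2 * (e1 a * e1 b) := by
  rw [hat2_mul, sc_y hF, sc_y hF, ← hF.hr]; ring

theorem hat2_D (hF : Frame x U r) (a b : Fin 6) :
    hat2 (sc U w0 w1) (Co.D x) a b = sq x * (w0 * w1) * (e0 a * e1 b - e1 a * e0 b) := by
  have h1 := hat2_mul (sc U w0 w1) (fun i => x i) (yy x) a b
  have h2 := hat2_mul (sc U w0 w1) (yy x) (fun i => x i) a b
  rw [sc_x hF, sc_y hF] at h1 h2
  have h3 : hat2 (sc U w0 w1) (Co.D x) a b = hat2 (sc U w0 w1) (fun i j => x i * yy x j) a b -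
      hat2 (sc U w0 w1) (fun i j => yy x i * x j) a b := by
    simp only [hat2, Co.D, mul_sub, Finset.sum_sub_distrib]
  rw [h3, h1, h2, ← hF.hr]; ring

theorem hat2_dl (hF : Frame x U r) (a b : Fin 6) :
    hat2 (sc U w0 w1) dl a b = w0 ^ 2 * (e0 a * e0 b) + w1 ^ 2 * (e1 a * e1 b) + Qr a b := by
  unfold hat2
  have h : ∀ i, ∑ j, sc U w0 w1 i a * sc U w0 w1 j b * dl i j =
      (if a = 0 then w0 else if a = 1 then w1 else 1) *
        (if b = 0 then w0 else if b = 1 then w1 else 1) * (U i a * U i b) := by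
    intro i
    have : ∀ j, sc U w0 w1 i a * sc U w0 w1 j b * dl i j =
      dl i j * (sc U w0 w1 i a * sc U w0 w1 j b) := fun j => by ring
    simp only [this]
    rw [sum_dl (fun j => sc U w0 w1 i a * sc U w0 w1 j b) i]
    unfold sc; ring
  simp only [h, ← Finset.mul_sum, hF.col]
  unfold dl e0 e1 Qr
  fin_cases a <;> fin_cases b <;> simp [e0Z, e1Z, QZ] <;> ring

theorem hat2_om (hF : Frame x U r) (a b : Fin 6) :
    hat2 (sc U w0 w1) Co.om a b = w0 * w1 * (e0 a * e1 b - e1 a * e0 b) + Omr a b := by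
  have h1 : hat2 (sc U w0 w1) Co.om a b =
      (if a = 0 then w0 else if a = 1 then w1 else 1) *
        (if b = 0 then w0 else if b = 1 then w1 else 1) * J b a := by
    have h2 : ∀ i j, sc U w0 w1 i a * sc U w0 w1 j b * Co.om i j =
        (if a = 0 then w0 else if a = 1 then w1 else 1) *
        (if b = 0 then w0 else if b = 1 then w1 else 1) *
          ∑ c, ∑ d, (U j c * U j b) * (J c d) * (U i d * U i a) := by
      intro i j
      unfold Co.om sc
      rw [hF.hJ j i]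
      simp only [Finset.mul_sum]
      refine Finset.sum_congr rfl fun c _ => Finset.sum_congr rfl fun d _ => ?_
      ring
    unfold hat2
    simp only [h2, ← Finset.mul_sum]
    congr 1
    have h3 : ∀ i, ∑ j, ∑ c, ∑ d, (U j c * U j b) * (J c d) * (U i d * U i a) =
        ∑ d, J b d * (U i d * U i a) := by
      intro i
      rw [Finset.sum_comm]
      have : ∀ c, ∑ j, ∑ d, (U j c * U j b) * (J c d) * (U i d * U i a) =
          dl b c * ∑ d, J c d * (U i d * U i a) := by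
        intro c
        rw [Finset.sum_comm, dl_comm, ← hF.col c b, Finset.sum_mul_sum, Finset.sum_comm]
        exact Finset.sum_congr rfl fun j _ => Finset.sum_congr rfl fun d _ => by ring
      simp only [this]
      exact sum_dl (fun c => ∑ d, J c d * (U i d * U i a)) b
    simp only [h3]
    rw [Finset.sum_comm]
    simp only [← Finset.mul_sum, hF.col]
    exact sum_dl' (fun d => J b d) a
  rw [h1]
  unfold J e0 e1 Omr
  fin_cases a <;> fin_cases b <;> simp [e0Z, e1Z, OmZ, DZ, JZ] <;> ring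

theorem sum_sc_sc (hF : Frame x U r) (i j : Fin 6) :
    ∑ a, sc U w0 w1 i a * sc U w0 w1 j a =
      dl i j + (w0 ^ 2 - 1) * (U i 0 * U j 0) + (w1 ^ 2 - 1) * (U i 1 * U j 1) := by
  rw [← hF.row i j]
  simp [Fin.sum_univ_six, sc]
  ring

namespace Co

variable {c : Co}

theorem gi_frame (hc : c.Good) (hF : Frame x U r) (h0 : w0 ^ 2 = 1 / c.v (sq x))
    (h1 : w1 ^ 2 = 1 / c.p (sq x)) (i j : Fin 6) :
    (c.met x)⁻¹ i j = ∑ a, sc U w0 w1 i a * sc U w0 w1 j a := by
  rw [sum_sc_sc hF, inv_met_apply hc, h0, h1]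
  unfold gi
  have hv := (hc.v_pos (sq_nonneg' x)).ne'
  have hp := (hc.p_pos (sq_nonneg' x)).ne'
  rw [hF.hx i, hF.hx j, hF.hy i, hF.hy j]
  have e1 : 1 / c.v (sq x) - 1 = -(c.f (sq x) / c.v (sq x) * (r * r)) := by
    rw [hF.hr]; field_simp; unfold v; ring
  have e2 : 1 / c.p (sq x) - 1 = -(c.h (sq x) / c.p (sq x) * (r * r)) := by
    rw [hF.hr]; field_simp; unfold p; ring
  rw [e1, e2]
  ring

/-- The coefficients of the curvature tensor in an orthonormal frame. -/
def co (c : Co) (s w0 w1 : ℝ) : Fin 6 → ℝ :=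
  ![(c.f s / c.v s + c.f1 s / c.v s * s + c.k3 s * s + c.k4 s * s ^ 2 - 3 * c.h s -
      6 * c.h1 s * s) * (w0 ^ 2 * w1 ^ 2),
    (c.f s / c.v s + c.f1 s / c.v s * s) * w0 ^ 2,
    (c.f s / c.v s + c.k3 s * s) * w1 ^ 2,
    c.f s / c.v s,
    -c.h s,
    -(c.h s + c.h1 s * s) * (w0 * w1)]

theorem rm_frame (hF : Frame x U r) :
    hat4 (sc U w0 w1) (c.rm x) = cur (c.co (sq x) w0 w1) := by
  have e : c.rm x = (c.f (sq x) / c.v (sq x)) • (X13 dl dl - X14 dl dl) +
      (c.f1 (sq x) / c.v (sq x)) • (X13 dl (fun i j => x i * x j) + X13 (fun i j => x i * x j) dl -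
        X14 dl (fun i j => x i * x j) - X14 (fun i j => x i * x j) dl) +
      (c.k3 (sq x)) • (X13 dl (fun i j => yy x i * yy x j) + X13 (fun i j => yy x i * yy x j) dl -
        X14 dl (fun i j => yy x i * yy x j) - X14 (fun i j => yy x i * yy x j) dl) +
      (c.k4 (sq x)) • (X12 (Co.D x) (Co.D x)) -
      (c.h (sq x)) • (X13 om om - X14 om om + (2 : ℝ) • X12 om om) -
      (c.h1 (sq x)) • (X13 (Co.D x) om + X13 om (Co.D x) - X14 (Co.D x) om - X14 om (Co.D x) +
        (2 : ℝ) • X12 (Co.D x) om + (2 : ℝ) • X12 om (Co.D x)) := by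
    funext i j k l
    simp only [Pi.add_apply, Pi.sub_apply, Pi.smul_apply, smul_eq_mul, X12, X13, X14, rm]
    ring
  rw [e]
  simp only [hat4_add, hat4_sub, hat4_smul, hat4_X12, hat4_X13, hat4_X14]
  funext a b c' d
  simp only [Pi.add_apply, Pi.sub_apply, Pi.smul_apply, smul_eq_mul, X12, X13, X14, hat2_xx hF,
    hat2_yy hF, hat2_D hF, hat2_dl hF, hat2_om hF, cur, Fin.sum_univ_six]
  have t0 : (TZ 0 a b c' d : ℝ) = (e0 a * e1 b - e1 a * e0 b) * (e0 c' * e1 d - e1 c' * e0 d) := by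
    simp [TZ, DZ, e0, e1]
  have t1 : (TZ 1 a b c' d : ℝ) = e0 a * e0 c' * Qr b d + Qr a c' * (e0 b * e0 d) -
      e0 a * e0 d * Qr b c' - Qr a d * (e0 b * e0 c') := by
    simp [TZ, KNZ, e0, Qr]
  have t2 : (TZ 2 a b c' d : ℝ) = e1 a * e1 c' * Qr b d + Qr a c' * (e1 b * e1 d) -
      e1 a * e1 d * Qr b c' - Qr a d * (e1 b * e1 c') := by
    simp [TZ, KNZ, e1, Qr]
  have t3 : (TZ 3 a b c' d : ℝ) = Qr a c' * Qr b d - Qr a d * Qr b c' := by
    simp [TZ, Qr]
  have t4 : (TZ 4 a b c' d : ℝ) = Omr a c' * Omr b d - Omr a d * Omr b c' +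
      2 * Omr a b * Omr c' d := by
    simp [TZ, Omr]
  have t5 : (TZ 5 a b c' d : ℝ) = (e0 a * e1 c' - e1 a * e0 c') * Omr b d +
      Omr a c' * (e0 b * e1 d - e1 b * e0 d) - (e0 a * e1 d - e1 a * e0 d) * Omr b c' -
      Omr a d * (e0 b * e1 c' - e1 b * e0 c') + 2 * (e0 a * e1 b - e1 a * e0 b) * Omr c' d +
      2 * Omr a b * (e0 c' * e1 d - e1 c' * e0 d) := by
    simp [TZ, DZ, e0, e1, Omr]
  rw [t0, t1, t2, t3, t4, t5]
  simp [co]
  ring

end Co

end Pool.Agent.Y490.GBC
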