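import Pool.Agent.Y490.GBC.Calc

/-!
A metric isometric to the Euclidean one is flat.
-/

open Filter MeasureTheory
open scoped Topology ContDiff

set_option autoImplicit false
set_option maxHeartbeats 4000000

noncomputable section

namespace Pool.Agent.Y490.GBC

variable {n : ℕ}

theorem hasPd_of_diff {F : E n → ℝ} {x : E n} (h : DifferentiableAt ℝ F x) :
    HasPd F (fun k => pd k F x) x := by
  unfold HasPd
  have e : (∑ k, pd k F x • (EuclideanSpace.proj k : E n →L[ℝ] ℝ)) = fderiv ℝ F x := by
    ext v
    have hv : v = ∑ k, v k • EuclideanSpace.single k (1 : ℝ) := by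
      ext j
      simp [Pi.single_apply]
    conv_rhs => rw [hv]
    simp [pd, mul_comm]
  rw [e]
  exact h.hasFDerivAt

theorem contDiff_pd {F : E n → ℝ} (h : ContDiff ℝ ∞ F) (i : Fin n) : ContDiff ℝ ∞ (pd i F) := by
  unfold pd
  exact (h.fderiv_right (m := ∞) (by simp)).clm_apply contDiff_const

theorem pd_comm {F : E n → ℝ} (h : ContDiff ℝ ∞ F) (i j : Fin n) (x : E n) :
    pd i (pd j F) x = pd j (pd i F) x := by
  have hd : DifferentiableAt ℝ (fderiv ℝ F) x :=
    ((h.fderiv_right (m := 1) (by norm_cast)).differentiable one_ne_zero) x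
  have e : ∀ i j : Fin n, pd i (pd j F) x =
      fderiv ℝ (fderiv ℝ F) x (EuclideanSpace.single i 1) (EuclideanSpace.single j 1) := by
    intro i j
    unfold pd
    rw [fderiv_clm_apply hd (differentiableAt_const _)]
    simp
  rw [e, e]
  have hs : IsSymmSndFDerivAt ℝ F x := by
    refine h.contDiffAt.isSymmSndFDerivAt ?_
    rw [minSmoothness_of_isRCLikeNormedField]
    norm_cast
  exact hs _ _

section iso

variable {g : Met n} {φ : E n → E n}

theorem rm_zero_of_iso (hdet : ∀ x, (g x).det ≠ 0) (hφ : ContDiff ℝ ∞ φ)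
    (h : ∀ x i j, ∑ m, pd i (fun y => φ y m) x * pd j (fun y => φ y m) x = g x i j)
    (hC : ∀ k i j x, DifferentiableAt ℝ (Chr g k i j) x) (i j q l : Fin n) (x : E n) :
    Rm g i j q l x = 0 := by
  have hΦ : ∀ m, ContDiff ℝ ∞ fun y => φ y m := fun m =>
    (contDiff_piLp_apply (𝕜 := ℝ) (p := 2)).comp hφ
  set a : Fin n → Fin n → E n → ℝ := fun m i => pd i (fun y => φ y m) with ha
  have hac : ∀ m i, ContDiff ℝ ∞ (a m i) := fun m i => contDiff_pd (hΦ m) i
  have hapd : ∀ m i x, HasPd (a m i) (fun k => pd k (a m i) x) x := fun m i x =>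
    hasPd_of_diff ((hac m i).differentiable (by simp) x)
  set b : Fin n → Fin n → Fin n → E n → ℝ := fun m i j => pd i (a m j) with hb
  have hsym : ∀ m i j x, b m i j x = b m j i x := fun m i j x => pd_comm (hΦ m) i j x
  have hg : ∀ i j, (fun y => g y i j) = fun y => ∑ m, a m i y * a m j y := by
    intro i j; funext y; exact (h y i j).symm
  have hdg : ∀ k i j x, pd k (fun y => g y i j) x =
      ∑ m, (b m k i x * a m j x + a m i x * b m k j x) := by
    intro k i j x
    rw [hg i j]
    have := (HasPd.sum Finset.univ (f := fun m y => a m i y * a m j y)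
      (df := fun m k => pd k (a m i) x * a m j x + a m i x * pd k (a m j) x)
      (x := x) fun m _ => (hapd m i x).mul (hapd m j x)).pd k
    exact this
  have hChr : ∀ k i j x, Chr g k i j x = ∑ l, (g x)⁻¹ k l * ∑ m, b m i j x * a m l x := by
    intro k i j x
    unfold Chr
    rw [Finset.mul_sum]
    refine Finset.sum_congr rfl fun l _ => ?_
    rw [hdg, hdg, hdg, ← Finset.sum_add_distrib, ← Finset.sum_sub_distrib]
    have : ∑ m, (b m i j x * a m l x + a m j x * b m i l x +
        (b m j i x * a m l x + a m i x * b m j l x) -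
        (b m l i x * a m j x + a m i x * b m l j x)) = 2 * ∑ m, b m i j x * a m l x := by
      rw [Finset.mul_sum]
      refine Finset.sum_congr rfl fun m _ => ?_
      rw [hsym m l i, hsym m l j, hsym m j i]; ring
    rw [this]; ring
  have hinv : ∀ x m m', ∑ k, ∑ l, a m k x * (g x)⁻¹ k l * a m' l x =
      (1 : Matrix (Fin n) (Fin n) ℝ) m m' := by
    intro x m m'
    set A : Matrix (Fin n) (Fin n) ℝ := Matrix.of fun i m => a m i x with hA
    have hAA : A * A.transpose = g x := by
      ext i j
      rw [Matrix.mul_apply]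
      exact h x i j
    have hu : IsUnit (g x).det := (hdet x).isUnit
    have h1 : A * (A.transpose * (g x)⁻¹) = 1 := by
      rw [← Matrix.mul_assoc, hAA, Matrix.mul_nonsing_inv _ hu]
    have h2 := mul_eq_one_comm.mp h1
    rw [← h2, Matrix.mul_apply]
    simp only [Matrix.mul_apply, Matrix.transpose_apply, hA, Matrix.of_apply, Finset.sum_mul]
    rw [Finset.sum_comm]
  have hΓ : ∀ m i j x, ∑ k, Chr g k i j x * a m k x = b m i j x := by
    intro m i j x
    simp only [hChr]
    have e : ∀ k, (∑ l, (g x)⁻¹ k l * ∑ m', b m' i j x * a m' l x) * a m k x =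
        ∑ m', b m' i j x * ∑ l, a m k x * (g x)⁻¹ k l * a m' l x := by
      intro k
      simp only [Finset.mul_sum, Finset.sum_mul]
      rw [Finset.sum_comm]
      refine Finset.sum_congr rfl fun m' _ => Finset.sum_congr rfl fun l _ => ?_
      ring
    simp only [e]
    rw [Finset.sum_comm]
    simp only [← Finset.mul_sum, hinv, Matrix.one_apply]
    simp
  have hbfun : ∀ m i j, b m i j = fun y => ∑ k, Chr g k i j y * a m k y := by
    intro m i j; funext y; exact (hΓ m i j y).symm
  have hdb : ∀ m i j l x, pd i (b m j l) x =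
      ∑ k, (pd i (Chr g k j l) x + ∑ p, Chr g k i p x * Chr g p j l x) * a m k x := by
    intro m i j l x
    have h1 : pd i (b m j l) x =
        ∑ k, (pd i (Chr g k j l) x * a m k x + Chr g k j l x * b m i k x) := by
      rw [hbfun m j l]
      exact (HasPd.sum Finset.univ (f := fun k y => Chr g k j l y * a m k y)
        (df := fun k i => pd i (Chr g k j l) x * a m k x + Chr g k j l x * pd i (a m k) x)
        (x := x) fun k _ => (hasPd_of_diff (hC k j l x)).mul (hapd m k x)).pd i
    rw [h1, Finset.sum_add_distrib]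
    simp only [add_mul, Finset.sum_add_distrib]
    congr 1
    simp only [← hΓ m i, Finset.mul_sum, Finset.sum_mul]
    rw [Finset.sum_comm]
    refine Finset.sum_congr rfl fun k _ => Finset.sum_congr rfl fun p _ => ?_
    ring
  have hX : ∀ m, ∑ k, (pd i (Chr g k j l) x - pd j (Chr g k i l) x +
      ∑ p, (Chr g k i p x * Chr g p j l x - Chr g k j p x * Chr g p i l x)) * a m k x = 0 := by
    intro m
    have h1 : pd i (b m j l) x = pd j (b m i l) x := pd_comm (hac m l) i j x
    rw [hdb, hdb] at h1
    rw [← sub_eq_zero, ← Finset.sum_sub_distrib] at h1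
    rw [← h1]
    refine Finset.sum_congr rfl fun k _ => ?_
    rw [Finset.sum_sub_distrib]; ring
  unfold Rm
  have e : ∀ k, g x q k * (pd i (Chr g k j l) x - pd j (Chr g k i l) x +
      ∑ p, (Chr g k i p x * Chr g p j l x - Chr g k j p x * Chr g p i l x)) =
      ∑ m, a m q x * ((pd i (Chr g k j l) x - pd j (Chr g k i l) x +
      ∑ p, (Chr g k i p x * Chr g p j l x - Chr g k j p x * Chr g p i l x)) * a m k x) := by
    intro k
    rw [← h x q k, Finset.sum_mul]
    refine Finset.sum_congr rfl fun m _ => ?_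
    ring
  simp only [e]
  rw [Finset.sum_comm]
  simp only [← Finset.mul_sum, hX, mul_zero, Finset.sum_const_zero]

theorem L2_zero_of_iso (hdet : ∀ x, (g x).det ≠ 0) (hiso : IsometricToEuclidean g)
    (hC : ∀ k i j x, DifferentiableAt ℝ (Chr g k i j) x) (x : E n) : L2 g x = 0 := by
  obtain ⟨φ, -, hφ, h⟩ := hiso
  unfold L2
  simp only [rm_zero_of_iso hdet hφ h hC, mul_zero, Finset.sum_const_zero]

end iso

end Pool.Agent.Y490.GBC
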