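import Pool.Agent.Y490.GBC.Mass
import Pool.Agent.Y490.GBC.NonIso

/-!
The counterexample.
-/

open Filter MeasureTheory
open scoped Topology ContDiff

set_option autoImplicit false
set_option maxHeartbeats 4000000

noncomputable section

namespace Pool.Agent.Y490.GBC

theorem not_iso_cx : ¬IsometricToEuclidean cx.met := by
  intro h
  have h0 := L2_zero_of_iso (fun x => (isRiemannian_cx.posDef x).det_pos.ne') h
    (fun k i j x => by
      have e : Chr cx.met k i j = fun y => cx.chr y k i j := by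
        funext y; exact Co.Chr_eq cx_good y k i j
      rw [e]
      exact (HasFDerivAt.differentiableAt (Co.hasPd_chr cx_good x k i j))) 0
  exact (L2_pos 0).ne' h0

theorem gJ_eq : gJ = cx.met := by
  funext x
  ext i j
  simp only [gJ, Co.met, Matrix.of_apply, cx, sq_eq_norm, yy_eq, dl, Jx]

theorem main : IsRiemannian gJ ∧ IsCompleteMetric gJ ∧ AsympFlat gJ 2 ∧
    Integrable (fun x => L2 gJ x * √(gJ x).det) ∧ (∀ x, 0 < L2 gJ x) ∧ (∀ x, 0 < Scal gJ x) ∧
    HasGBCMass gJ 0 ∧ ¬IsometricToEuclidean gJ := by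
  rw [gJ_eq]
  exact ⟨isRiemannian_cx, isComplete_cx, asympFlat_cx, integrable_L2, L2_pos, Scal_pos,
    hasMass_cx, not_iso_cx⟩

theorem not_rigidity : ¬Rigidity 6 := by
  intro h
  obtain ⟨h1, h2, h3, h4, h5, -, h7, h8⟩ := main
  exact h8 (h gJ 2 h1 h2 (by norm_num) h3 h4 (fun x => (h5 x).le) h7)

theorem not_rigidityScal : ¬RigidityScal 6 := by
  intro h
  obtain ⟨h1, h2, h3, h4, h5, h6, h7, h8⟩ := main
  exact h8 (h gJ 2 h1 h2 (by norm_num) h3 h4 (fun x => (h5 x).le) (fun x => (h6 x).le) h7)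

end Pool.Agent.Y490.GBC
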