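import Pool.Agent.Y490.GBC.Flat

/-!
Riemannian metric, integrability of `L₂`, mass and completeness for the explicit metric.
-/

open Filter MeasureTheory
open scoped Topology ContDiff

set_option autoImplicit false
set_option maxHeartbeats 4000000

noncomputable section

namespace Pool.Agent.Y490.GBC

/-! ### The metric is Riemannian -/

theorem contDiff_sq : ContDiff ℝ ∞ sq := by
  unfold sq
  exact ContDiff.sum fun i _ => (contDiff_piLp_apply (𝕜 := ℝ) (p := 2)).mul
    (contDiff_piLp_apply (𝕜 := ℝ) (p := 2))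

theorem contDiff_coord (i : Fin 6) : ContDiff ℝ ∞ (fun x : E 6 => x i) :=
  contDiff_piLp_apply (𝕜 := ℝ) (p := 2)

theorem contDiff_yy (i : Fin 6) : ContDiff ℝ ∞ (fun x : E 6 => yy x i) := by
  unfold yy
  exact ContDiff.sum fun j _ => contDiff_const.mul (contDiff_coord j)

theorem contDiff_inv (a : ℝ) (k : ℕ) : ContDiff ℝ ∞ (fun x : E 6 => a / (1 + sq x) ^ k) := by
  refine contDiff_const.div ((contDiff_const.add contDiff_sq).pow k) fun x => ?_
  have := sq_nonneg' x
  positivity

theorem contDiff_met (i j : Fin 6) : ContDiff ℝ ∞ fun x => cx.met x i j := by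
  have h : (fun x => cx.met x i j) = fun x => dl i j + 36 / (1 + sq x) ^ 3 * (x i * x j) +
      12 / (1 + sq x) ^ 2 * (yy x i * yy x j) := rfl
  rw [h]
  exact (contDiff_const.add ((contDiff_inv 36 3).mul ((contDiff_coord i).mul (contDiff_coord j)))).add
    ((contDiff_inv 12 2).mul ((contDiff_yy i).mul (contDiff_yy j)))

/-- The quadratic form of the metric. -/
theorem met_quad (x : E 6) (w : Fin 6 → ℝ) : ∑ i, ∑ j, cx.met x i j * w i * w j =
    ∑ i, w i * w i + cx.f (sq x) * (∑ i, x i * w i) ^ 2 + cx.h (sq x) * (∑ i, yy x i * w i) ^ 2 := by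
  have h1 : ∀ i, ∑ j, cx.met x i j * w i * w j = w i * w i +
      cx.f (sq x) * ((x i * w i) * ∑ j, x j * w j) +
        cx.h (sq x) * ((yy x i * w i) * ∑ j, yy x j * w j) := by
    intro i
    have h2 : ∀ j, cx.met x i j * w i * w j = dl i j * (w i * w j) +
        cx.f (sq x) * ((x i * w i) * (x j * w j)) +
          cx.h (sq x) * ((yy x i * w i) * (yy x j * w j)) := by
      intro j; simp only [Co.met, Matrix.of_apply]; ring
    simp only [h2, Finset.sum_add_distrib, ← Finset.mul_sum, sum_dl (fun j => w i * w j) i]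
  simp only [h1, Finset.sum_add_distrib, ← Finset.mul_sum, ← Finset.sum_mul]
  ring

theorem met_quad_ge (x : E 6) (w : Fin 6 → ℝ) :
    ∑ i, w i * w i ≤ ∑ i, ∑ j, cx.met x i j * w i * w j := by
  rw [met_quad]
  have h1 := mul_nonneg (cx_good.fpos _ (sq_nonneg' x)) (sq_nonneg (∑ i, x i * w i))
  have h2 := mul_nonneg (cx_good.hpos _ (sq_nonneg' x)) (sq_nonneg (∑ i, yy x i * w i))
  linarith

theorem isRiemannian_cx : IsRiemannian cx.met where
  smooth := contDiff_met
  posDef x := by
    refine Matrix.PosDef.of_dotProduct_mulVec_pos ?_ ?_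
    · ext i j
      simp only [Matrix.conjTranspose_apply, Co.met, Matrix.of_apply, star_trivial, dl_comm j i]
      ring
    · intro w hw
      have h := met_quad_ge x w
      have e : star w ⬝ᵥ (cx.met x).mulVec w = ∑ i, ∑ j, cx.met x i j * w i * w j := by
        simp only [dotProduct, Matrix.mulVec, Pi.star_apply, star_trivial, Finset.mul_sum]
        exact Finset.sum_congr rfl fun i _ => Finset.sum_congr rfl fun j _ => by ring
      rw [e]
      exact lt_of_lt_of_le (ip_pos hw) h

/-! ### Integrability -/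

theorem L2_cx (x : E 6) : L2 cx.met x = cx.ell (sq x) := Co.L2_eq cx_good x

theorem L2_pos (x : E 6) : 0 < L2 cx.met x := by
  rw [L2_cx]; exact cx_ell_pos (sq_nonneg' x)

theorem Scal_pos (x : E 6) : 0 < Scal cx.met x := by
  rw [Co.Scal_eq cx_good]; exact cx_sca_pos (sq_nonneg' x)

theorem continuous_sq : Continuous sq := contDiff_sq.continuous

theorem continuous_L2 : Continuous (L2 cx.met) := by
  have h : L2 cx.met = fun x => (331776 + 16367616 * sq x + 309799296 * sq x ^ 2 +
    2273719680 * sq x ^ 3 +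
    7361290368 * sq x ^ 4 + 34686071424 * sq x ^ 5 + 8630136576 * sq x ^ 6 +
    2649210624 * sq x ^ 7 +
    66044160 * sq x ^ 8 - 44188416 * sq x ^ 9 - 5374080 * sq x ^ 10 + 127872 * sq x ^ 11 +
    79488 * sq x ^ 12 +
    10368 * sq x ^ 13) / (pa (sq x) ^ 3 * pb (sq x) ^ 2 * (1 + sq x) ^ 4) := by
    funext x
    rw [L2_cx, cx_ell (sq_nonneg' x)]
  rw [h]
  have h0 := continuous_sq
  have ha : Continuous fun x : E 6 => pa (sq x) := by unfold pa; fun_prop
  have hb : Continuous fun x : E 6 => pb (sq x) := by unfold pb; fun_prop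
  refine Continuous.div (by fun_prop) (by fun_prop) fun x => ?_
  have h1 := pa_pos (sq_nonneg' x)
  have h2 := pb_pos (sq_nonneg' x)
  have h3 := sq_nonneg' x
  positivity

theorem continuous_met (i j : Fin 6) : Continuous fun x => cx.met x i j :=
  (contDiff_met i j).continuous

theorem abs_met_le (x : E 6) (i j : Fin 6) : |cx.met x i j| ≤ 49 := by
  have h := met_sub_le x i j
  have h1 : 48 / (1 + ‖x‖ ^ 2) ≤ 48 := div_le_self (by norm_num) (by nlinarith [sq_nonneg ‖x‖])
  have h2 : |(1 : Matrix (Fin 6) (Fin 6) ℝ) i j| ≤ 1 := by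
    rw [Matrix.one_apply]; split_ifs <;> simp
  calc |cx.met x i j| = |(cx.met x i j - (1 : Matrix (Fin 6) (Fin 6) ℝ) i j) +
        (1 : Matrix (Fin 6) (Fin 6) ℝ) i j| := by rw [sub_add_cancel]
    _ ≤ 48 + 1 := ba (h.trans h1) h2
    _ = 49 := by norm_num

theorem integrable_L2 : Integrable (fun x => L2 cx.met x * √(cx.met x).det) := by
  set D : ℝ := √((Fintype.card (Fin 6)).factorial • (49 : ℝ) ^ Fintype.card (Fin 6)) with hD
  have hI : Integrable (fun x : E 6 => (16 * 56000000000 * D) * (1 + ‖x‖) ^ (-(8 : ℝ))) := by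
    refine Integrable.const_mul (integrable_one_add_norm ?_) _
    simp
    norm_num
  refine hI.mono ?_ (Eventually.of_forall fun x => ?_)
  · refine Continuous.aestronglyMeasurable ?_
    refine continuous_L2.mul (Continuous.sqrt ?_)
    exact Continuous.matrix_det (continuous_matrix continuous_met)
  · have hdet : √(cx.met x).det ≤ D := by
      refine Real.sqrt_le_sqrt ?_
      refine (le_abs_self _).trans ?_
      exact Matrix.det_le (abv := AbsoluteValue.abs) (abs_met_le x)
    have hell := cx_ell_le (sq_nonneg' x)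
    rw [← L2_cx] at hell
    have hr := norm_nonneg x
    have h8 : (1 + ‖x‖) ^ (-(8 : ℝ)) = ((1 + ‖x‖) ^ 8)⁻¹ := by
      rw [Real.rpow_neg (by positivity), show (8 : ℝ) = (8 : ℕ) by norm_num, Real.rpow_natCast]
    have h4 : 56000000000 / (1 + sq x) ^ 4 ≤ 16 * 56000000000 * ((1 + ‖x‖) ^ 8)⁻¹ := by
      rw [sq_eq_norm, ← div_eq_mul_inv, div_le_div_iff₀ (by positivity) (by positivity)]
      have : (1 + ‖x‖) ^ 2 ≤ 2 * (1 + ‖x‖ ^ 2) := by nlinarith [sq_nonneg (1 - ‖x‖)]
      calc (56000000000 : ℝ) * (1 + ‖x‖) ^ 8 = 56000000000 * ((1 + ‖x‖) ^ 2) ^ 4 := by ring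
        _ ≤ 56000000000 * (2 * (1 + ‖x‖ ^ 2)) ^ 4 := by gcongr
        _ = _ := by ring
    rw [Real.norm_of_nonneg (mul_nonneg (L2_pos x).le (Real.sqrt_nonneg _)),
      Real.norm_of_nonneg (by rw [h8]; positivity), h8]
    calc L2 cx.met x * √(cx.met x).det ≤ (16 * 56000000000 * ((1 + ‖x‖) ^ 8)⁻¹) * D :=
          mul_le_mul (hell.trans h4) hdet (Real.sqrt_nonneg _) (by positivity)
      _ = _ := by ring

/-! ### The mass -/

theorem flux_le {r : ℝ} (hr : 1 ≤ r) :
    |flux cx.met r| ≤ (1296 * (2620200960 * 360) * (sphereMeasure 6 Set.univ).toReal) * (1 / r) := by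
  haveI : IsFiniteMeasure (sphereMeasure 6) := by unfold sphereMeasure; infer_instance
  have hr0 : 0 < r := by linarith
  unfold flux
  rw [abs_mul, abs_of_pos (by positivity : 0 < r ^ (6 - 1))]
  have hb : ∀ ν : Metric.sphere (0 : E 6) 1,
      ‖∑ i, ∑ j, ∑ k, ∑ l, P cx.met i j k l (r • (ν : E 6)) *
        pd l (fun y => cx.met y j k) (r • (ν : E 6)) * (ν : E 6) i‖ ≤
        1296 * (2620200960 * 360 * (1 / r ^ 7)) := by
    intro ν
    have hν : ‖(ν : E 6)‖ = 1 := by simpa using ν.2
    have hn : ‖r • (ν : E 6)‖ = r := by rw [norm_smul, hν, mul_one, Real.norm_of_nonneg hr0.le]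
    rw [Real.norm_eq_abs, sum4]
    refine (Finset.abs_sum_le_sum_abs _ _).trans ?_
    refine (Finset.sum_le_sum (g := fun _ => 2620200960 * 360 * (1 / r ^ 7)) fun q _ => ?_).trans ?_
    · rw [pd_met]
      have h1 := P_le q.1 q.2.1 q.2.2.1 q.2.2.2 (r • (ν : E 6))
      have h2 := dg_le (r • (ν : E 6)) q.2.1 q.2.2.1 q.2.2.2
      have h3 := abs_coord_le (ν : E 6) q.1
      rw [hν] at h3
      rw [sq_eq_norm, hn] at h1
      rw [hn] at h2
      refine (bm (bm h1 h2) h3).trans ?_
      have e1 : 2620200960 / (1 + r ^ 2) ^ 2 * (360 * r / (1 + r ^ 2) ^ 2) * 1 =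
          2620200960 * 360 * (r / (1 + r ^ 2) ^ 4) := by
        field_simp
      rw [e1]
      refine mul_le_mul_of_nonneg_left ?_ (by norm_num)
      rw [div_le_div_iff₀ (by positivity) (by positivity)]
      calc r * r ^ 7 = (r ^ 2) ^ 4 := by ring
        _ ≤ (1 + r ^ 2) ^ 4 := pow_le_pow_left₀ (by positivity) (by linarith) 4
        _ = 1 * (1 + r ^ 2) ^ 4 := by ring
    · simp
  have h := norm_integral_le_of_norm_le_const (μ := sphereMeasure 6) (Eventually.of_forall hb)
  rw [Real.norm_eq_abs] at h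
  refine (mul_le_mul_of_nonneg_left h (by positivity)).trans ?_
  have e : (sphereMeasure 6).real Set.univ = (sphereMeasure 6 Set.univ).toReal := rfl
  rw [e]
  have h5 : r ^ (6 - 1) * (1 / r ^ 7) ≤ 1 / r := by
    rw [show 6 - 1 = 5 by norm_num]
    have : r ^ 5 * (1 / r ^ 7) = 1 / r ^ 2 := by field_simp
    rw [this]
    refine div_le_div_of_nonneg_left (by norm_num) hr0 ?_
    nlinarith
  calc r ^ (6 - 1) * (1296 * (2620200960 * 360 * (1 / r ^ 7)) * (sphereMeasure 6 Set.univ).toReal)
      = (1296 * (2620200960 * 360) * (sphereMeasure 6 Set.univ).toReal) *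
        (r ^ (6 - 1) * (1 / r ^ 7)) := by ring
    _ ≤ _ := mul_le_mul_of_nonneg_left h5 (by positivity)

theorem hasMass_cx : HasGBCMass cx.met 0 := by
  unfold HasGBCMass
  have h1 : Tendsto (fun r => flux cx.met r) atTop (𝓝 0) := by
    refine squeeze_zero_norm' (a := fun r : ℝ =>
      (1296 * (2620200960 * 360) * (sphereMeasure 6 Set.univ).toReal) * (1 / r)) ?_ ?_
    · filter_upwards [eventually_ge_atTop (1 : ℝ)] with r hr
      rw [Real.norm_eq_abs]
      exact flux_le hr
    · have h : Tendsto (fun r : ℝ => 1 / r) atTop (𝓝 0) := by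
        simpa using tendsto_inv_atTop_zero (𝕜 := ℝ)
      simpa using h.const_mul (1296 * (2620200960 * 360) * (sphereMeasure 6 Set.univ).toReal)
  simpa using h1.const_mul (c₂ 6)

/-! ### Completeness -/

theorem norm_sub_le_glength {γ : ℝ → E 6} (hγ : ContDiff ℝ 1 γ) :
    ‖γ 1 - γ 0‖ ≤ glength cx.met γ := by
  have hd : Continuous (deriv γ) := hγ.continuous_deriv le_rfl
  have h1 : ∫ t in (0 : ℝ)..1, deriv γ t = γ 1 - γ 0 := by
    refine intervalIntegral.integral_deriv_eq_sub (fun t _ => ?_) (hd.intervalIntegrable _ _)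
    exact (hγ.differentiable one_ne_zero) t
  rw [← h1]
  refine (intervalIntegral.norm_integral_le_integral_norm zero_le_one).trans ?_
  unfold glength
  refine intervalIntegral.integral_mono_on zero_le_one (hd.norm.intervalIntegrable _ _) ?_ ?_
  · refine Continuous.intervalIntegrable (Continuous.sqrt ?_) _ _
    refine continuous_finsetSum _ fun i _ => continuous_finsetSum _ fun j _ => ?_
    have hc : ∀ i, Continuous fun t => deriv γ t i := fun i =>
      (contDiff_coord i).continuous.comp hd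
    exact (((continuous_met i j).comp hγ.continuous).mul (hc i)).mul (hc j)
  · intro t _
    rw [EuclideanSpace.norm_eq]
    refine Real.sqrt_le_sqrt ?_
    refine le_trans (le_of_eq ?_) (met_quad_ge (γ t) (fun i => deriv γ t i))
    exact Finset.sum_congr rfl fun i _ => by rw [Real.norm_eq_abs, sq_abs]; ring

theorem norm_sub_le_gdist (x y : E 6) : ‖y - x‖ ≤ gdist cx.met x y := by
  unfold gdist
  refine le_csInf ?_ ?_
  · refine ⟨_, fun t => x + t • (y - x), ?_, ?_, ?_, rfl⟩
    · exact contDiff_const.add (contDiff_id.smul contDiff_const)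
    · simp
    · simp
  · rintro L ⟨γ, hγ, h0, h1, rfl⟩
    rw [← h0, ← h1]
    exact norm_sub_le_glength hγ

theorem isComplete_cx : IsCompleteMetric cx.met := by
  intro u hu
  have h : CauchySeq u := by
    rw [Metric.cauchySeq_iff]
    intro ε hε
    obtain ⟨N, hN⟩ := hu ε hε
    refine ⟨N, fun m hm k hk => ?_⟩
    have h1 := norm_sub_le_gdist (u k) (u m)
    rw [dist_eq_norm]
    exact lt_of_le_of_lt h1 (hN k hk m hm)
  exact cauchySeq_tendsto_of_complete h

end Pool.Agent.Y490.GBC
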