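import Pool.Agent.Y490.GBC.Frame

/-!
The basic curvature tensors in an adapted frame and their pairings.
-/

open Filter MeasureTheory
open scoped Topology ContDiff

set_option autoImplicit false
set_option maxHeartbeats 4000000

noncomputable section

namespace Pool.Agent.Y490.GBC

def e0Z (a : Fin 6) : ℤ := if a = 0 then 1 else 0
def e1Z (a : Fin 6) : ℤ := if a = 1 then 1 else 0
def QZ (a b : Fin 6) : ℤ := if a = b then (if a = 0 then 0 else if a = 1 then 0 else 1) else 0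
def DZ (a b : Fin 6) : ℤ := e0Z a * e1Z b - e1Z a * e0Z b
def OmZ (a b : Fin 6) : ℤ := JZ b a - DZ a b

def KNZ (u : Fin 6 → ℤ) (a b c d : Fin 6) : ℤ :=
  u a * u c * QZ b d + QZ a c * (u b * u d) - u a * u d * QZ b c - QZ a d * (u b * u c)

/-- The basic curvature tensors. -/
def TZ (t : Fin 6) (a b c d : Fin 6) : ℤ :=
  if t = 0 then DZ a b * DZ c d
  else if t = 1 then KNZ e0Z a b c d
  else if t = 2 then KNZ e1Z a b c d
  else if t = 3 then QZ a c * QZ b d - QZ a d * QZ b c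
  else if t = 4 then OmZ a c * OmZ b d - OmZ a d * OmZ b c + 2 * OmZ a b * OmZ c d
  else DZ a c * OmZ b d + OmZ a c * DZ b d - DZ a d * OmZ b c - OmZ a d * DZ b c +
    2 * DZ a b * OmZ c d + 2 * OmZ a b * DZ c d

/-- Their Ricci tensors. -/
def rtab (t b d : Fin 6) : ℤ :=
  if b = d then
    if t = 0 then e0Z b + e1Z b
    else if t = 1 then 4 * e0Z b + QZ b b
    else if t = 2 then 4 * e1Z b + QZ b b
    else if t = 3 then 3 * QZ b b
    else if t = 4 then 3 * QZ b b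
    else 0
  else 0

/-- Their scalar curvatures. -/
def stab (t : Fin 6) : ℤ :=
  if t = 0 then 2 else if t = 1 then 8 else if t = 2 then 8 else if t = 3 then 12
  else if t = 4 then 12 else 0

theorem rtab_eq : ∀ t b d : Fin 6, ∑ a, TZ t a b a d = rtab t b d := by decide +kernel

theorem stab_eq : ∀ t : Fin 6, ∑ b, rtab t b b = stab t := by decide +kernel

def iv (a b : Fin 6) : ℤ := if a = b then 1 else 0

/-- Twice the tensor `P`. -/
def PZ (t : Fin 6) (a b c d : Fin 6) : ℤ :=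
  2 * TZ t a b c d + 2 * (rtab t b c * iv a d) - 2 * (rtab t b d * iv a c) -
    2 * (rtab t a c * iv b d) + 2 * (rtab t a d * iv b c) +
    stab t * (iv a c * iv b d - iv a d * iv b c)

def gtab (t u : Fin 6) : ℤ :=
  (![![0, 0, 0, 24, 24, 0], ![0, 0, 48, 48, 48, 0], ![0, 48, 0, 48, 48, 0],
    ![24, 48, 48, 24, 24, 0], ![24, 48, 48, 24, 120, 0], ![0, 0, 0, 0, 0, 96]] :
      Fin 6 → Fin 6 → ℤ) t u

theorem gtab_eq : ∀ t u : Fin 6,
    ∑ a, ∑ b, ∑ c, ∑ d, PZ t a b c d * TZ u a b c d = 2 * gtab t u := by decide +kernel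

theorem sum4i (f : Fin 6 → Fin 6 → Fin 6 → Fin 6 → ℤ) : ∑ i, ∑ j, ∑ k, ∑ l, f i j k l =
    ∑ q : Fin 6 × Fin 6 × Fin 6 × Fin 6, f q.1 q.2.1 q.2.2.1 q.2.2.2 := by
  simp only [Fintype.sum_prod_type]

/-! ### Linear combinations -/

/-- A combination of the basic curvature tensors. -/
def cur (q : Fin 6 → ℝ) (a b c d : Fin 6) : ℝ := ∑ t, q t * (TZ t a b c d : ℝ)

theorem fric_cur (q : Fin 6 → ℝ) (b d : Fin 6) :
    fric (cur q) b d = ∑ t, q t * (rtab t b d : ℝ) := by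
  unfold fric cur
  rw [Finset.sum_comm]
  refine Finset.sum_congr rfl fun t _ => ?_
  rw [← Finset.mul_sum, ← rtab_eq t b d]
  push_cast; rfl

theorem fscal_cur (q : Fin 6 → ℝ) : fscal (cur q) = ∑ t, q t * (stab t : ℝ) := by
  unfold fscal
  simp only [fric_cur]
  rw [Finset.sum_comm]
  refine Finset.sum_congr rfl fun t _ => ?_
  rw [← Finset.mul_sum, ← stab_eq t]
  push_cast; rfl

theorem iv_cast (a b : Fin 6) : ((iv a b : ℤ) : ℝ) = if a = b then 1 else 0 := by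
  unfold iv; split_ifs <;> simp

theorem fP_cur (q : Fin 6 → ℝ) (a b c d : Fin 6) :
    fP (cur q) a b c d = ∑ t, q t / 2 * (PZ t a b c d : ℝ) := by
  unfold fP
  rw [fric_cur, fric_cur, fric_cur, fric_cur, fscal_cur]
  simp only [← iv_cast, cur, Finset.sum_mul, Finset.mul_sum, ← Finset.sum_add_distrib,
    ← Finset.sum_sub_distrib]
  refine Finset.sum_congr rfl fun t _ => ?_
  unfold PZ
  push_cast
  ring

theorem pair_cur (q : Fin 6 → ℝ) :
    ∑ a, ∑ b, ∑ c, ∑ d, fP (cur q) a b c d * cur q a b c d =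
      ∑ t, ∑ u, q t * q u * (gtab t u : ℝ) := by
  have h : ∀ t u, q t * q u * (gtab t u : ℝ) =
      ∑ r : Fin 6 × Fin 6 × Fin 6 × Fin 6, q t / 2 * (PZ t r.1 r.2.1 r.2.2.1 r.2.2.2 : ℝ) *
        (q u * (TZ u r.1 r.2.1 r.2.2.1 r.2.2.2 : ℝ)) := by
    intro t u
    have h1 := congrArg (fun z : ℤ => (z : ℝ)) (gtab_eq t u)
    rw [sum4i] at h1
    push_cast at h1
    have h2 : (gtab t u : ℝ) = 1 / 2 *
        ∑ r : Fin 6 × Fin 6 × Fin 6 × Fin 6, (PZ t r.1 r.2.1 r.2.2.1 r.2.2.2 : ℝ) *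
        (TZ u r.1 r.2.1 r.2.2.1 r.2.2.2 : ℝ) := by rw [h1]; ring
    rw [h2, Finset.mul_sum, Finset.mul_sum]
    exact Finset.sum_congr rfl fun r _ => by ring
  simp only [h, fP_cur]
  rw [sum4]
  simp only [cur, Finset.sum_mul_sum]
  rw [Finset.sum_comm]
  refine Finset.sum_congr rfl fun t _ => ?_
  rw [Finset.sum_comm]

end Pool.Agent.Y490.GBC
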