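import Pool.Agent.Y490.GBC.Christ

/-!
The Riemann tensor of the metrics `δ + f(|x|²) x ⊗ x + h(|x|²) Jx ⊗ Jx` on `ℝ⁶`.
-/

open Filter MeasureTheory
open scoped Topology ContDiff

set_option autoImplicit false
set_option maxHeartbeats 4000000

noncomputable section

namespace Pool.Agent.Y490.GBC

namespace Co

variable {c : Co}

theorem hasPd_chr (hc : c.Good) (x : E 6) (m j l : Fin 6) :
    HasPd (fun y => c.chr y m j l) (fun i =>
      dl m i * (c.al (sq x) * (x j * x l) + c.be (sq x) * dl j l +
        c.ga (sq x) * (yy x j * yy x l)) +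
      x m * (2 * c.al1 (sq x) * x i * (x j * x l) +
        c.al (sq x) * (dl j i * x l + x j * dl l i) +
        2 * c.be1 (sq x) * x i * dl j l + 2 * c.ga1 (sq x) * x i * (yy x j * yy x l) +
        c.ga (sq x) * (J j i * yy x l + yy x j * J l i)) +
      2 * c.ep1 (sq x) * x i * (yy x m * (x j * yy x l + x l * yy x j)) +
      c.ep (sq x) * (J m i * (x j * yy x l + x l * yy x j) +
        yy x m * (dl j i * yy x l + x j * J l i + dl l i * yy x j + x l * J j i)) +
      2 * c.h1 (sq x) * x i * (yy x l * J m j + yy x j * J m l) +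
      c.h (sq x) * (J l i * J m j + J j i * J m l)) x := by
  have hs := sq_nonneg' x
  have al := (hasPd_sq x).comp (hc.hal hs)
  have be := (hasPd_sq x).comp (hc.hbe hs)
  have ga := (hasPd_sq x).comp (hc.hga hs)
  have ep := (hasPd_sq x).comp (hc.hep hs)
  have hh := (hasPd_sq x).comp (hc.hh _ hs)
  have A := ((al.mul ((hasPd_x j x).mul (hasPd_x l x))).add (be.mul (hasPd_const (dl j l) x))).add
    (ga.mul ((hasPd_y j x).mul (hasPd_y l x)))
  have B := ((hasPd_x j x).mul (hasPd_y l x)).add ((hasPd_x l x).mul (hasPd_y j x))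
  have C := ((hasPd_y l x).mul (hasPd_const (J m j) x)).add
    ((hasPd_y j x).mul (hasPd_const (J m l) x))
  have D := (((hasPd_x m x).mul A).add (ep.mul ((hasPd_y m x).mul B))).add (hh.mul C)
  exact D.congr fun i => by ring

theorem sum_chr (x : E 6) (m i j l : Fin 6) :
    ∑ p, c.chr x m i p * c.chr x p j l =
      (c.al (sq x) * x m * x i + c.ep (sq x) * yy x m * yy x i) *
        (sq x * (c.al (sq x) * (x j * x l) + c.be (sq x) * dl j l +
          c.ga (sq x) * (yy x j * yy x l)) - 2 * c.h (sq x) * yy x j * yy x l) +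
      (c.ga (sq x) * x m * yy x i + c.ep (sq x) * yy x m * x i + c.h (sq x) * J m i) *
        ((sq x * c.ep (sq x) + c.h (sq x)) * (x j * yy x l + x l * yy x j)) +
      c.be (sq x) * x m * c.chr x i j l +
      c.h (sq x) * yy x i *
        (yy x m * (c.al (sq x) * (x j * x l) + c.be (sq x) * dl j l +
          c.ga (sq x) * (yy x j * yy x l)) -
          c.ep (sq x) * x m * (x j * yy x l + x l * yy x j) -
          c.h (sq x) * (yy x l * dl m j + yy x j * dl m l)) := by
  have h1 : ∀ p, c.chr x m i p * c.chr x p j l =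
      (c.al (sq x) * x m * x i + c.ep (sq x) * yy x m * yy x i) * (x p * c.chr x p j l) +
      (c.ga (sq x) * x m * yy x i + c.ep (sq x) * yy x m * x i + c.h (sq x) * J m i) *
        (yy x p * c.chr x p j l) +
      c.be (sq x) * x m * (dl i p * c.chr x p j l) +
      c.h (sq x) * yy x i * (J m p * c.chr x p j l) := by
    intro p
    rw [show c.chr x m i p = x m * (c.al (sq x) * (x i * x p) + c.be (sq x) * dl i p +
      c.ga (sq x) * (yy x i * yy x p)) +
      c.ep (sq x) * (yy x m * (x i * yy x p + x p * yy x i)) +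
      c.h (sq x) * (yy x p * J m i + yy x i * J m p) from rfl]
    ring
  have h2 : ∀ w : Fin 6 → ℝ, ∑ p, w p * c.chr x p j l =
      (c.al (sq x) * (x j * x l) + c.be (sq x) * dl j l + c.ga (sq x) * (yy x j * yy x l)) *
        (∑ p, w p * x p) +
      c.ep (sq x) * (x j * yy x l + x l * yy x j) * (∑ p, w p * yy x p) +
      c.h (sq x) * yy x l * (∑ p, w p * J p j) + c.h (sq x) * yy x j * (∑ p, w p * J p l) := by
    intro w
    simp only [Finset.mul_sum, ← Finset.sum_add_distrib]
    refine Finset.sum_congr rfl fun p _ => ?_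
    simp only [chr]
    ring
  have hxy : ∑ m, yy x m * x m = 0 := by
    rw [← sum_xy x]; exact Finset.sum_congr rfl fun m _ => mul_comm _ _
  have hyd : ∑ p, J m p * x p = yy x m := rfl
  simp only [h1, Finset.sum_add_distrib, ← Finset.mul_sum, sum_dl (fun p => c.chr x p j l) i]
  rw [h2 (fun p => x p), h2 (yy x), h2 (fun p => J m p)]
  simp only [sum_xx, sum_xy, sum_yy, sum_xJ, sum_yJ, hxy, hyd, sum_Jy, JJ]
  ring

/-- The coefficient of the basic curvature tensors. -/
def k3 (c : Co) (s : ℝ) : ℝ := (2 * c.f s * c.h s - c.h1 s) / c.v s + c.h s ^ 2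
def k4 (c : Co) (s : ℝ) : ℝ :=
  c.f1 s * (2 * c.h s + s * c.h1 s) / c.v s +
    (2 * c.h s * c.h1 s + s * c.h1 s ^ 2 - c.h s ^ 3) / c.p s - 2 * c.h2 s

/-- `x ∧ Jx`. -/
def D (x : E 6) (i j : Fin 6) : ℝ := x i * yy x j - yy x i * x j

/-- The Kähler form. -/
def om (i j : Fin 6) : ℝ := J j i

/-- The curvature tensor. -/
def rm (c : Co) (x : E 6) (i j k l : Fin 6) : ℝ :=
  c.f (sq x) / c.v (sq x) * (dl i k * dl j l - dl i l * dl j k) +
  c.f1 (sq x) / c.v (sq x) * (dl i k * (x j * x l) + x i * x k * dl j l - dl i l * (x j * x k) -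
    x i * x l * dl j k) +
  c.k3 (sq x) * (dl i k * (yy x j * yy x l) + yy x i * yy x k * dl j l -
    dl i l * (yy x j * yy x k) - yy x i * yy x l * dl j k) +
  c.k4 (sq x) * (D x i j * D x k l) -
  c.h (sq x) * (om i k * om j l - om i l * om j k + 2 * om i j * om k l) -
  c.h1 (sq x) * (D x i k * om j l + om i k * D x j l - D x i l * om j k - om i l * D x j k +
    2 * D x i j * om k l + 2 * om i j * D x k l)

theorem Rm_eq (hc : c.Good) (x : E 6) (i j k l : Fin 6) :
    Rm c.met i j k l x = c.rm x i j k l := by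
  unfold Rm
  have e : ∀ m j l, Chr c.met m j l = fun y => c.chr y m j l := fun m j l => by
    funext y; exact Chr_eq hc y m j l
  simp only [e, (hasPd_chr hc x _ _ _).pd, Finset.sum_sub_distrib, sum_chr]
  have hv := (hc.v_pos (sq_nonneg' x)).ne'
  have hp := (hc.p_pos (sq_nonneg' x)).ne'
  set s := sq x with hs
  set A : Fin 6 → Fin 6 → ℝ := fun j l => c.al s * (x j * x l) + c.be s * dl j l +
    c.ga s * (yy x j * yy x l) with hA
  set B : Fin 6 → Fin 6 → ℝ := fun j l => x j * yy x l + x l * yy x j with hB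
  -- coefficient of `x m`
  set c1 : Fin 6 → Fin 6 → ℝ := fun i j =>
    2 * c.al1 s * x i * (x j * x l) + c.al s * (dl j i * x l + x j * dl l i) +
    2 * c.be1 s * x i * dl j l + 2 * c.ga1 s * x i * (yy x j * yy x l) +
    c.ga s * (J j i * yy x l + yy x j * J l i) +
    c.al s * x i * (s * A j l - 2 * c.h s * yy x j * yy x l) +
    c.ga s * yy x i * ((s * c.ep s + c.h s) * B j l) + c.be s * c.chr x i j l -
    c.h s * yy x i * c.ep s * B j l with hc1
  set c2 : Fin 6 → Fin 6 → ℝ := fun i j =>
    2 * c.ep1 s * x i * B j l +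
    c.ep s * (dl j i * yy x l + x j * J l i + dl l i * yy x j + x l * J j i) +
    c.ep s * yy x i * (s * A j l - 2 * c.h s * yy x j * yy x l) +
    c.ep s * x i * ((s * c.ep s + c.h s) * B j l) + c.h s * yy x i * A j l with hc2
  have hT : ∀ m, c.met x k m *
      (dl m i * (c.al s * (x j * x l) + c.be s * dl j l + c.ga s * (yy x j * yy x l)) +
      x m * (2 * c.al1 s * x i * (x j * x l) + c.al s * (dl j i * x l + x j * dl l i) +
        2 * c.be1 s * x i * dl j l + 2 * c.ga1 s * x i * (yy x j * yy x l) +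
        c.ga s * (J j i * yy x l + yy x j * J l i)) +
      2 * c.ep1 s * x i * (yy x m * (x j * yy x l + x l * yy x j)) +
      c.ep s * (J m i * (x j * yy x l + x l * yy x j) +
        yy x m * (dl j i * yy x l + x j * J l i + dl l i * yy x j + x l * J j i)) +
      2 * c.h1 s * x i * (yy x l * J m j + yy x j * J m l) +
      c.h s * (J l i * J m j + J j i * J m l) -
      (dl m j * (c.al s * (x i * x l) + c.be s * dl i l + c.ga s * (yy x i * yy x l)) +
      x m * (2 * c.al1 s * x j * (x i * x l) + c.al s * (dl i j * x l + x i * dl l j) +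
        2 * c.be1 s * x j * dl i l + 2 * c.ga1 s * x j * (yy x i * yy x l) +
        c.ga s * (J i j * yy x l + yy x i * J l j)) +
      2 * c.ep1 s * x j * (yy x m * (x i * yy x l + x l * yy x i)) +
      c.ep s * (J m j * (x i * yy x l + x l * yy x i) +
        yy x m * (dl i j * yy x l + x i * J l j + dl l j * yy x i + x l * J i j)) +
      2 * c.h1 s * x j * (yy x l * J m i + yy x i * J m l) +
      c.h s * (J l j * J m i + J i j * J m l)) +
      ((c.al s * x m * x i + c.ep s * yy x m * yy x i) *
        (s * (c.al s * (x j * x l) + c.be s * dl j l + c.ga s * (yy x j * yy x l)) -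
          2 * c.h s * yy x j * yy x l) +
      (c.ga s * x m * yy x i + c.ep s * yy x m * x i + c.h s * J m i) *
        ((s * c.ep s + c.h s) * (x j * yy x l + x l * yy x j)) +
      c.be s * x m * c.chr x i j l +
      c.h s * yy x i *
        (yy x m * (c.al s * (x j * x l) + c.be s * dl j l + c.ga s * (yy x j * yy x l)) -
          c.ep s * x m * (x j * yy x l + x l * yy x j) -
          c.h s * (yy x l * dl m j + yy x j * dl m l)) -
      ((c.al s * x m * x j + c.ep s * yy x m * yy x j) *
        (s * (c.al s * (x i * x l) + c.be s * dl i l + c.ga s * (yy x i * yy x l)) -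
          2 * c.h s * yy x i * yy x l) +
      (c.ga s * x m * yy x j + c.ep s * yy x m * x j + c.h s * J m j) *
        ((s * c.ep s + c.h s) * (x i * yy x l + x l * yy x i)) +
      c.be s * x m * c.chr x j i l +
      c.h s * yy x j *
        (yy x m * (c.al s * (x i * x l) + c.be s * dl i l + c.ga s * (yy x i * yy x l)) -
          c.ep s * x m * (x i * yy x l + x l * yy x i) -
          c.h s * (yy x l * dl m i + yy x i * dl m l))))) =
      (c1 i j - c1 j i) * (c.met x k m * x m) + (c2 i j - c2 j i) * (c.met x k m * yy x m) +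
      (A j l + c.h s ^ 2 * yy x j * yy x l) * (c.met x k m * dl m i) -
      (A i l + c.h s ^ 2 * yy x i * yy x l) * (c.met x k m * dl m j) +
      (c.ep s * B j l + c.h s * (s * c.ep s + c.h s) * B j l - 2 * c.h1 s * x j * yy x l -
        c.h s * J l j) * (c.met x k m * J m i) +
      (2 * c.h1 s * x i * yy x l + c.h s * J l i - c.ep s * B i l -
        c.h s * (s * c.ep s + c.h s) * B i l) * (c.met x k m * J m j) +
      (2 * c.h1 s * (x i * yy x j - x j * yy x i) + c.h s * (J j i - J i j)) *
        (c.met x k m * J m l) := by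
    intro m
    simp only [hA, hB, hc1, hc2]
    ring
  simp only [hT, Finset.sum_add_distrib, Finset.sum_sub_distrib, ← Finset.mul_sum, met_x, met_y,
    met_dl, met_J]
  simp only [hA, hB, hc1, hc2, rm, met, Matrix.of_apply, chr, D, om, k3, k4, al, be, ga, ep, al1,
    be1, ga1, ep1, ← hs]
  rw [dl_comm j i, dl_comm l i, dl_comm l j, dl_comm k i, dl_comm k j, J_skew j i, J_skew l i,
    J_skew l j, J_skew k i, J_skew k j, J_skew l k]
  have hv' : c.v s = 1 + s * c.f s := rfl
  have hp' : c.p s = 1 + s * c.h s := rfl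
  field_simp
  rw [hv', hp']
  ring

end Co

end Pool.Agent.Y490.GBC
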